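import Pool.Agent.Y503.RB.Stm

/-!
Bilinearity of the forms, positivity, the region of inner horospheres.
-/

set_option autoImplicit false

namespace Pool.Agent.Y503.RB

open scoped ContDiff RealInnerProductSpace ENNReal
open MeasureTheory Set

theorem d1_lin (φ : ℂ → E4) (a b : ℝ) (z : ℂ) :
    d1 φ (a + b * Complex.I) z = a • d1 φ 1 z + b • d1 φ Complex.I z := by
  have h : (a + b * Complex.I : ℂ) = a • (1 : ℂ) + b • Complex.I := by
    simp
  unfold d1
  rw [h, map_add, map_smul, map_smul]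

theorem d2_lin_left (φ : ℂ → E4) (a b : ℝ) (v z : ℂ) :
    d2 φ (a + b * Complex.I) v z = a • d2 φ 1 v z + b • d2 φ Complex.I v z := by
  have h : (a + b * Complex.I : ℂ) = a • (1 : ℂ) + b • Complex.I := by
    simp
  unfold d2
  rw [h, map_add, map_smul, map_smul]

theorem exc_lin_left (φ : ℂ → E4) (n : E4) (a b : ℝ) (v z : ℂ) :
    exc φ n (a + b * Complex.I) v z = a * exc φ n 1 v z + b * exc φ n Complex.I v z := by
  unfold exc sff fff
  rw [d1_lin, d2_lin_left, inner_add_right, inner_add_left, inner_smul_right, inner_smul_right,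
    inner_smul_left, inner_smul_left]
  simp
  ring

theorem exc_symm (hS : St_SYM) (φ : ℂ → E4) (n : E4) (u v z : ℂ) (h : ContDiffAt ℝ ∞ φ z) :
    exc φ n u v z = exc φ n v u z := by
  unfold exc sff fff
  rw [hS φ z h u v, real_inner_comm (d1 φ v z)]

/-- The quadratic form. -/
theorem exc_quad (hS : St_SYM) (φ : ℂ → E4) (n : E4) (a b : ℝ) (z : ℂ)
    (h : ContDiffAt ℝ ∞ φ z) :
    exc φ n (a + b * Complex.I) (a + b * Complex.I) z =
      a ^ 2 * exc φ n 1 1 z + 2 * a * b * exc φ n 1 Complex.I z +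
        b ^ 2 * exc φ n Complex.I Complex.I z := by
  rw [exc_lin_left, exc_symm hS φ n 1 _ z h, exc_symm hS φ n Complex.I _ z h, exc_lin_left,
    exc_lin_left, exc_symm hS φ n Complex.I 1 z h]
  ring

/-- A nondegenerate positive semidefinite form is positive definite. -/
theorem inner_of_semidef {e f g : ℝ} (h : ∀ a b : ℝ, 0 ≤ a ^ 2 * e + 2 * a * b * f + b ^ 2 * g)
    (hd : e * g - f ^ 2 ≠ 0) : 0 < e ∧ 0 < e * g - f ^ 2 := by
  have h1 : 0 ≤ e := by simpa using h 1 0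
  have h3 := h f (-e)
  have he : 0 < e := by
    rcases h1.lt_or_eq with h | h'
    · exact h
    · exfalso
      rw [← h'] at hd
      have hf : f ≠ 0 := by
        intro h0
        apply hd
        rw [h0]; ring
      have h4 := h (-(g + 1) / (2 * f)) 1
      rw [← h'] at h4
      have h5 : 2 * (-(g + 1) / (2 * f)) * 1 * f = -(g + 1) := by
        field_simp
      nlinarith
  refine ⟨he, ?_⟩
  have h6 : 0 ≤ e * (e * g - f ^ 2) := by nlinarith
  have h7 : 0 ≤ e * g - f ^ 2 := by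
    by_contra hc
    push Not at hc
    nlinarith
  exact lt_of_le_of_ne h7 (Ne.symm hd)

/-- Continuity of the coordinates. -/
theorem continuous_zc : Continuous zc := by
  have : zc = fun x : E4 => ((x 0 : ℝ) : ℂ) + (x 1 : ℝ) * Complex.I := by
    funext x
    apply Complex.ext <;> simp [zc]
  rw [this]
  fun_prop

theorem continuous_coord : Continuous (fun x : E4 => (x 2, zc x)) :=
  Continuous.prodMk (by fun_prop) continuous_zc

/-- The region of inner horospheres. -/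
def region (φ N₁ N₂ : ℂ → E4) (U : Set ℂ) : Set E4 :=
  {x | zc x ∈ U ∧ Inner φ (nor N₁ N₂ (x 2) (zc x)) (zc x) ∧ x 3 ∈ Ioo 0 1}

theorem isOpen_inner (hC : St_CONT) {φ N₁ N₂ : ℂ → E4} {U : Set ℂ} (hP : Patch φ U)
    (hF : Frame φ N₁ N₂ U) :
    IsOpen {q : ℝ × ℂ | q.2 ∈ U ∧ Inner φ (nor N₁ N₂ q.1 q.2) q.2} := by
  obtain ⟨h1, h2, -⟩ := hC φ N₁ N₂ U hP hF
  have hU : IsOpen ((univ : Set ℝ) ×ˢ U) := isOpen_univ.prod hP.isOpen
  have e : {q : ℝ × ℂ | q.2 ∈ U ∧ Inner φ (nor N₁ N₂ q.1 q.2) q.2} =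
      ((univ : Set ℝ) ×ˢ U ∩ (fun q : ℝ × ℂ => exc φ (nor N₁ N₂ q.1 q.2) 1 1 q.2) ⁻¹' Ioi 0) ∩
      ((univ : Set ℝ) ×ˢ U ∩ (fun q : ℝ × ℂ => excDet φ (nor N₁ N₂ q.1 q.2) q.2) ⁻¹' Ioi 0) := by
    ext q
    simp only [mem_setOf_eq, Inner, mem_inter_iff, mem_prod, mem_univ, true_and, mem_preimage,
      mem_Ioi]
    tauto
  rw [e]
  exact (h1.isOpen_inter_preimage hU isOpen_Ioi).inter (h2.isOpen_inter_preimage hU isOpen_Ioi)

theorem isOpen_region (hC : St_CONT) {φ N₁ N₂ : ℂ → E4} {U : Set ℂ} (hP : Patch φ U)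
    (hF : Frame φ N₁ N₂ U) : IsOpen (region φ N₁ N₂ U) := by
  have h := (isOpen_inner hC hP hF).preimage continuous_coord
  have h2 : IsOpen {x : E4 | x 3 ∈ Ioo (0 : ℝ) 1} :=
    isOpen_Ioo.preimage (by fun_prop : Continuous fun x : E4 => x 3)
  have e : region φ N₁ N₂ U = ((fun x : E4 => (x 2, zc x)) ⁻¹'
      {q : ℝ × ℂ | q.2 ∈ U ∧ Inner φ (nor N₁ N₂ q.1 q.2) q.2}) ∩
      {x : E4 | x 3 ∈ Ioo (0 : ℝ) 1} := by
    ext x
    simp only [region, mem_setOf_eq, mem_inter_iff, mem_preimage]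
    tauto
  rw [e]
  exact h.inter h2

/-- Measurability of the density. -/
theorem aemeasurable_dens (hC : St_CONT) {φ N₁ N₂ : ℂ → E4} {U : Set ℂ} (hP : Patch φ U)
    (hF : Frame φ N₁ N₂ U) :
    AEMeasurable (fun q : ℝ × ℂ => ENNReal.ofReal (dens φ (nor N₁ N₂ q.1 q.2) q.2))
      (volume.restrict (Ico 0 (2 * Real.pi) ×ˢ U)) := by
  obtain ⟨-, -, h3⟩ := hC φ N₁ N₂ U hP hF
  have hU : IsOpen ((univ : Set ℝ) ×ˢ U) := isOpen_univ.prod hP.isOpen
  have hm : AEMeasurable (fun q : ℝ × ℂ => dens φ (nor N₁ N₂ q.1 q.2) q.2)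
      (volume.restrict ((univ : Set ℝ) ×ˢ U)) := by
    have h4 : AEMeasurable (fun q : ℝ × ℂ => dens0 φ (nor N₁ N₂ q.1 q.2) q.2)
        (volume.restrict ((univ : Set ℝ) ×ˢ U)) := h3.aemeasurable hU.measurableSet
    have h5 := h4.indicator (isOpen_inner hC hP hF).measurableSet
    refine h5.congr ?_
    filter_upwards [ae_restrict_mem hU.measurableSet] with q hq
    have hq2 : q.2 ∈ U := hq.2
    by_cases hi : Inner φ (nor N₁ N₂ q.1 q.2) q.2
    · rw [indicator_of_mem (by exact ⟨hq2, hi⟩)]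
      simp [dens, hi]
    · rw [indicator_of_notMem (by exact fun h => hi h.2)]
      simp [dens, hi]
  exact (hm.mono_measure (Measure.restrict_mono (prod_mono (subset_univ _) subset_rfl)
    le_rfl)).ennreal_ofReal

end Pool.Agent.Y503.RB
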