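import Pool.Agent.Y503.RB.Def2

/-!
The converse: ribbon surfaces have parametrisations (up to a radial change of the ball) of total
horospherical curvature zero.
-/

set_option autoImplicit false

namespace Pool.Agent.Y503.RB

open scoped ContDiff RealInnerProductSpace ENNReal Topology
open MeasureTheory Set Metric

/-- Radial change of the distance from the sphere: `1 - |x|²` is replaced by about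
`δ h (1 - |x|²)`. -/
noncomputable def squeeze (δ : ℝ) (h : ℝ → ℝ) (x : E4) : E4 :=
  ((1 - δ * h (1 - ‖x‖ ^ 2)) * ‖x‖⁻¹) • x

/-- `h / h'`. -/
noncomputable def kap (h : ℝ → ℝ) (s : ℝ) : ℝ := h s / deriv h s

/-- Diffeomorphism between open sets which preserves the unit ball and fixes the unit sphere. -/
structure RelDiffeo (Φ Ψ : E4 → E4) (D D' : Set E4) : Prop where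
  isOpen : IsOpen D
  isOpen' : IsOpen D'
  map : ∀ x ∈ D, Φ x ∈ D' ∧ Ψ (Φ x) = x ∧ ContDiffAt ℝ ∞ Φ x
  map' : ∀ w ∈ D', Ψ w ∈ D ∧ Φ (Ψ w) = w ∧ ContDiffAt ℝ ∞ Ψ w
  lt_one : ∀ x ∈ D, ‖Φ x‖ < 1 ↔ ‖x‖ < 1
  eq_one : ∀ x ∈ D, ‖Φ x‖ = 1 ↔ ‖x‖ = 1
  fix : ∀ x ∈ D, ‖x‖ = 1 → Φ x = x
  trans : ∀ (φ : ℂ → E4) (z : ℂ), φ z ∈ D → ‖φ z‖ = 1 → ContDiffAt ℝ ∞ φ z →
    ∃ c : ℝ, 0 < c ∧ fderiv ℝ (fun w => ‖Φ (φ w)‖ ^ 2) z = c • fderiv ℝ (fun w => ‖φ w‖ ^ 2) z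

/-- The condition satisfied at an inner critical point of a horospherical height on the surface
`(1 - δ f) σ`. -/
def Bad (f : ℂ → ℝ) (σ : ℂ → E4) (δ β : ℝ) (ξ : E4) (z : ℂ) : Prop :=
  β * f z * (1 - δ * f z / 2) = (2 - 2 * ⟪σ z, ξ⟫) * (1 - δ * f z) + δ ^ 2 * f z ^ 2 ∧
  (∀ v : ℂ, (1 - δ * f z) * (-2 * ⟪d1 σ v z, ξ⟫) =
    fderiv ℝ f z v * (β * (1 - δ * f z) + δ * (2 - 2 * ⟪σ z, ξ⟫ - 2 * δ * f z))) ∧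
  (∀ v : ℂ, v ≠ 0 → (1 - δ * f z) * (-2 * ⟪d2 σ v v z, ξ⟫) <
    fderiv ℝ (fderiv ℝ f) z v v * (β * (1 - δ * f z) + δ * (2 - 2 * ⟪σ z, ξ⟫ - 2 * δ * f z)) +
      2 * δ * fderiv ℝ f z v * (-2 * ⟪d1 σ v z, ξ⟫) - δ * (β + 2 * δ) * (fderiv ℝ f z v) ^ 2)

/-- The limit condition for `δ → 0`. -/
def Lim (f : ℂ → ℝ) (σ : ℂ → E4) (z : ℂ) : Prop :=
  ∀ ξ : E4, ‖ξ‖ = 1 → ∀ β : ℝ, 0 ≤ β → 2 - 2 * ⟪σ z, ξ⟫ = β * f z →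
    (∀ v : ℂ, -2 * ⟪d1 σ v z, ξ⟫ = β * fderiv ℝ f z v) →
    ∃ v : ℂ, β * fderiv ℝ (fderiv ℝ f) z v v < -2 * ⟪d2 σ v v z, ξ⟫

/-- Inequality at a point. -/
def Good (q : ℂ → ℝ) (σ : ℂ → E4) (κ k : ℝ) (z : ℂ) : Prop :=
  ∀ w : ℝ, 1 / 2 ≤ w → (∀ u : ℂ, |fderiv ℝ q z u| ≤ 2 * κ * ‖d1 σ u z‖ * w) →
    ∃ v : ℂ, fderiv ℝ (fderiv ℝ q) z v v / κ + (1 - k) * (fderiv ℝ q z v) ^ 2 / κ ^ 2 <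
      2 * ‖d1 σ v z‖ ^ 2 * w ^ 2 - 2 * ‖d2 σ v v z‖ * w

/-- Determinant of the second derivative. -/
noncomputable def hdet (q : ℂ → ℝ) (z : ℂ) : ℝ :=
  fderiv ℝ (fderiv ℝ q) z 1 1 * fderiv ℝ (fderiv ℝ q) z Complex.I Complex.I -
    (fderiv ℝ (fderiv ℝ q) z 1 Complex.I) ^ 2

/-- INN: the point at infinity of an inner normal. -/
def St_INN : Prop := ∀ (ψ : ℂ → E4) (z : ℂ) (n : E4), ContDiffAt ℝ ∞ ψ z → ‖ψ z‖ < 1 →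
  ‖n‖ = 1 → (∀ v : ℂ, ⟪n, d1 ψ v z⟫ = 0) → Inner ψ n z →
  ∃ (ξ : E4) (t : ℝ), ‖ξ‖ = 1 ∧ 0 < t ∧ t * ‖ψ z - ξ‖ ^ 2 = 1 - ‖ψ z‖ ^ 2 ∧
    (∀ v : ℂ, ⟪t • ξ - (1 + t) • ψ z, d1 ψ v z⟫ = 0) ∧
    ∀ v : ℂ, v ≠ 0 → (1 + t) * ‖d1 ψ v z‖ ^ 2 < ⟪t • ξ - (1 + t) • ψ z, d2 ψ v v z⟫

/-- SQE: the equations at an inner critical point. -/
def St_SQE : Prop := ∀ (f : ℂ → ℝ) (σ : ℂ → E4) (δ : ℝ) (z : ℂ) (n : E4), ContDiffAt ℝ ∞ f z →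
  ContDiffAt ℝ ∞ σ z → (∀ᶠ w in 𝓝 z, ‖σ w‖ = 1) → 0 < δ → 0 < f z → δ * f z < 1 → ‖n‖ = 1 →
  (∀ v : ℂ, ⟪n, d1 (fun w => (1 - δ * f w) • σ w) v z⟫ = 0) →
  Inner (fun w => (1 - δ * f w) • σ w) n z →
  ∃ (ξ : E4) (β : ℝ), ‖ξ‖ = 1 ∧ 0 < β ∧ Bad f σ δ β ξ z

/-- TUBE: compactness. -/
def St_TUBE : Prop := ∀ (f : ℂ → ℝ) (σ : ℂ → E4) (z₀ : ℂ), ContDiffAt ℝ ∞ f z₀ →
  ContDiffAt ℝ ∞ σ z₀ → (0 < f z₀ ∨ (f z₀ = 0 ∧ fderiv ℝ f z₀ ≠ 0)) → Lim f σ z₀ →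
  ∃ ε > 0, ∀ δ ∈ Ioo 0 ε, ∀ z ∈ ball z₀ ε, ∀ ξ : E4, ‖ξ‖ = 1 → ∀ β : ℝ, 0 < β →
    ¬ Bad f σ δ β ξ z

/-- SIG: the radial projection of an immersed surface. -/
def St_SIG : Prop := ∀ (φ : ℂ → E4) (z : ℂ), ContDiffAt ℝ ∞ φ z → φ z ≠ 0 →
  Function.Injective (fderiv ℝ φ z) →
  ContDiffAt ℝ ∞ (fun w => ‖φ w‖⁻¹ • φ w) z ∧ (∀ᶠ w in 𝓝 z, ‖‖φ w‖⁻¹ • φ w‖ = 1) ∧
  (∀ v : ℂ, v ≠ 0 → fderiv ℝ (fun w => 1 - ‖φ w‖ ^ 2) z v = 0 →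
    d1 (fun w => ‖φ w‖⁻¹ • φ w) v z ≠ 0) ∧
  (fderiv ℝ (fun w => 1 - ‖φ w‖ ^ 2) z = 0 →
    Function.Injective (fderiv ℝ (fun w => ‖φ w‖⁻¹ • φ w) z))

/-- LIM0: the limit condition at the boundary. -/
def St_LIM0 : Prop := ∀ (f : ℂ → ℝ) (σ : ℂ → E4) (z : ℂ), ContDiffAt ℝ ∞ σ z →
  (∀ᶠ w in 𝓝 z, ‖σ w‖ = 1) → f z = 0 → fderiv ℝ f z ≠ 0 → (∃ v : ℂ, d1 σ v z ≠ 0) → Lim f σ z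

/-- LIM1: the limit condition in the interior. -/
def St_LIM1 : Prop := ∀ (q : ℂ → ℝ) (h : ℝ → ℝ) (σ : ℂ → E4) (z : ℂ), ContDiff ℝ ∞ h →
  ContDiffAt ℝ ∞ q z → ContDiffAt ℝ ∞ σ z → (∀ᶠ w in 𝓝 z, ‖σ w‖ = 1) →
  (∃ v : ℂ, d1 σ v z ≠ 0) → 0 < h (q z) → 0 < deriv h (q z) →
  Good q σ (kap h (q z)) (deriv (kap h) (q z)) z → Lim (fun w => h (q w)) σ z

/-- NCR: points which are not critical. -/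
def St_NCR : Prop := ∀ (q : ℂ → ℝ) (σ : ℂ → E4) (z₀ : ℂ), ContDiffAt ℝ ∞ q z₀ →
  ContDiffAt ℝ ∞ σ z₀ → fderiv ℝ q z₀ ≠ 0 →
  (∀ v : ℂ, v ≠ 0 → fderiv ℝ q z₀ v = 0 → d1 σ v z₀ ≠ 0) →
  ∃ ε > 0, ∀ z ∈ ball z₀ ε, ∀ κ ∈ Ioo 0 ε, ∀ k : ℝ, Good q σ κ k z

/-- MXQ: nondegenerate maxima of `q`. -/
def St_MXQ : Prop := ∀ (q : ℂ → ℝ) (σ : ℂ → E4) (z₀ : ℂ), ContDiffAt ℝ ∞ q z₀ →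
  ContDiffAt ℝ ∞ σ z₀ → Function.Injective (fderiv ℝ σ z₀) →
  (∀ v : ℂ, v ≠ 0 → fderiv ℝ (fderiv ℝ q) z₀ v v < 0) →
  ∃ ε > 0, ∀ z ∈ ball z₀ ε, ∀ κ ∈ Ioo 0 ε, ∀ k : ℝ, Good q σ κ k z

/-- SAD: saddles of `q`. -/
def St_SAD : Prop := ∀ (q : ℂ → ℝ) (σ : ℂ → E4) (z₀ : ℂ), ContDiffAt ℝ ∞ q z₀ →
  ContDiffAt ℝ ∞ σ z₀ → Function.Injective (fderiv ℝ σ z₀) → fderiv ℝ q z₀ = 0 →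
  hdet q z₀ < 0 →
  ∃ ε > 0, ∃ K > 0, ∃ η > 0, ∀ z ∈ ball z₀ ε, ∀ κ ∈ Ioo 0 ε, ∀ k ∈ Icc (0 : ℝ) 1,
    (q z₀ - K * κ ≤ q z → q z ≤ q z₀ - η * κ → 3 / 4 ≤ k) → Good q σ κ k z

/-- KAPPA: the function `h`. -/
def St_KAPPA : Prop := ∀ (ε K η : ℝ) (C : Finset ℝ), 0 < ε → 0 < K → 0 < η →
  (∀ c ∈ C, 0 < c) → ∃ h : ℝ → ℝ, ContDiff ℝ ∞ h ∧ h 0 = 0 ∧ (∀ s, 0 < deriv h s) ∧
    Function.Surjective h ∧ ∀ s, 0 < s → 0 < kap h s ∧ kap h s < ε ∧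
      0 ≤ deriv (kap h) s ∧ deriv (kap h) s ≤ 1 ∧
      ∀ c ∈ C, c - K * kap h s ≤ s → s ≤ c - η * kap h s → 3 / 4 ≤ deriv (kap h) s

/-- TYPE: second derivative test. -/
def St_TYPE : Prop := ∀ (q : ℂ → ℝ) (z₀ : ℂ), ContDiffAt ℝ ∞ q z₀ → fderiv ℝ q z₀ = 0 →
  (∀ u : ℂ, (∀ v : ℂ, fderiv ℝ (fderiv ℝ q) z₀ u v = 0) → u = 0) → ¬ IsLocalMin q z₀ →
  (∀ v : ℂ, v ≠ 0 → fderiv ℝ (fderiv ℝ q) z₀ v v < 0) ∨ hdet q z₀ < 0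

/-- SQD: `squeeze` is a diffeomorphism. -/
def St_SQD : Prop := ∀ (δ : ℝ) (h : ℝ → ℝ), ContDiff ℝ ∞ h → h 0 = 0 → (∀ s, 0 < deriv h s) →
  Function.Surjective h → 0 < δ → δ * h 1 < 1 →
  ∃ Ψ : E4 → E4, RelDiffeo (squeeze δ h) Ψ {x | x ≠ 0} {w | 1 - δ * h 1 < ‖w‖}

/-- GSURF: images of surfaces. -/
def St_GSURF : Prop := ∀ (Φ Ψ : E4 → E4) (D D' F : Set E4), RelDiffeo Φ Ψ D D' → PSurf F →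
  F ⊆ D → PSurf (Φ '' F) ∧ Φ '' F ∩ sphere 0 1 = F ∩ sphere 0 1

/-- PAR: local parametrisations of a surface without interior local maxima of the norm. -/
def St_PAR : Prop := ∀ F : Set E4, PSurf F → (0 : E4) ∉ F → MorseSurf F 0 → ∀ p ∈ F,
  ∃ (φ : ℂ → E4) (U : Set ℂ) (V : Set E4) (z : ℂ), BPatch φ U ∧ IsOpen V ∧ p ∈ V ∧
    F ∩ V = φ '' U ∩ closedBall 0 1 ∧ z ∈ U ∧ φ z = p ∧ (∀ w ∈ U, φ w ≠ 0) ∧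
    (fderiv ℝ (fun w => 1 - ‖φ w‖ ^ 2) z ≠ 0 ∨
      (‖p‖ < 1 ∧ fderiv ℝ (fun w => 1 - ‖φ w‖ ^ 2) z = 0 ∧
        ((∀ v : ℂ, v ≠ 0 → fderiv ℝ (fderiv ℝ (fun w => 1 - ‖φ w‖ ^ 2)) z v v < 0) ∨
          hdet (fun w => 1 - ‖φ w‖ ^ 2) z < 0)))

end Pool.Agent.Y503.RB
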