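import Pool.Agent.Y503.RB.Def

/-!
Statements of the steps.
-/

set_option autoImplicit false

namespace Pool.Agent.Y503.RB

open scoped ContDiff RealInnerProductSpace ENNReal
open MeasureTheory Set

/-- THETA: the map `push ξ`. -/
def St_THETA : Prop := ∀ ξ : E4, ‖ξ‖ = 1 → ∀ x : E4, x ≠ ξ →
  ‖push ξ x‖ = Real.exp (-ht ξ x) ∧ (‖x‖ = 1 → push ξ x = x) ∧ pull ξ (push ξ x) = x ∧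
  ContDiffAt ℝ ∞ (push ξ) x ∧ ContDiffAt ℝ ∞ (pull ξ) (push ξ x)

/-- HESS: critical points of the height. -/
def St_HESS : Prop := ∀ (ξ : E4) (φ : ℂ → E4) (z : ℂ), ‖ξ‖ = 1 → ContDiffAt ℝ ∞ φ z →
  ‖φ z‖ < 1 → fderiv ℝ (fun w => ht ξ (φ w)) z = 0 →
  ∃ n : E4, ‖n‖ = 1 ∧ (∀ v : ℂ, ⟪n, d1 φ v z⟫ = 0) ∧ foot (φ z) n = ξ ∧
    0 < rad (φ z) n ∧ rad (φ z) n < 1 ∧
    ∀ u v : ℂ, fderiv ℝ (fderiv ℝ (fun w => ht ξ (φ w))) z u v =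
      2 * (1 + ht ξ (φ z)) / ‖φ z - ξ‖ ^ 2 * exc φ n u v z

/-- SOC: second order condition at a local minimum. -/
def St_SOC : Prop := ∀ (f : ℂ → ℝ) (z : ℂ), ContDiffAt ℝ ∞ f z → IsLocalMin f z →
  ∀ u : ℂ, 0 ≤ fderiv ℝ (fderiv ℝ f) z u u

/-- EXPF: critical points and second derivatives of `exp (-2 t)`. -/
def St_EXPF : Prop := ∀ (t : ℂ → ℝ) (z : ℂ), ContDiffAt ℝ ∞ t z →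
  (fderiv ℝ (fun w => Real.exp (-t w) ^ 2) z = 0 ↔ fderiv ℝ t z = 0) ∧
  (fderiv ℝ t z = 0 → ∀ u v : ℂ,
    fderiv ℝ (fderiv ℝ (fun w => Real.exp (-t w) ^ 2)) z u v =
      -2 * Real.exp (-t z) ^ 2 * fderiv ℝ (fderiv ℝ t) z u v) ∧
  (IsLocalMax (fun w => Real.exp (-t w) ^ 2) z ↔ IsLocalMin t z)

/-- The matrix with given columns. -/
def cols (a b c d : E4) : Matrix (Fin 4) (Fin 4) ℝ :=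
  Matrix.of fun i j => (![a, b, c, d] j) i

/-- JAC: linear algebra of the Jacobian determinant. -/
def St_JAC : Prop := ∀ (b₁ b₂ n m G w₁ w₂ w₃ u₁ u₂ u₃ : E4) (δ₁ δ₂ δ₃ ρ : ℝ),
  ‖n‖ = 1 → ‖m‖ = 1 → ‖G‖ = 1 → ⟪n, m⟫ = 0 → ⟪n, b₁⟫ = 0 → ⟪n, b₂⟫ = 0 → ⟪m, b₁⟫ = 0 →
  ⟪m, b₂⟫ = 0 → ⟪n, w₁⟫ = 0 → ⟪n, w₂⟫ = 0 → w₃ = ρ • m →
  u₁ = w₁ + δ₁ • (n + G) → u₂ = w₂ + δ₂ • (n + G) → u₃ = w₃ + δ₃ • (n + G) →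
  ⟪G, u₁⟫ = 0 → ⟪G, u₂⟫ = 0 → ⟪G, u₃⟫ = 0 →
  (cols u₁ u₂ u₃ G).det ^ 2 * (⟪b₁, b₁⟫ * ⟪b₂, b₂⟫ - ⟪b₁, b₂⟫ ^ 2) =
    ρ ^ 2 * (⟪b₁, w₁⟫ * ⟪b₂, w₂⟫ - ⟪b₁, w₂⟫ * ⟪b₂, w₁⟫) ^ 2

/-- DG: the derivative of `gmap`. -/
def St_DG : Prop := ∀ (φ N₁ N₂ : ℂ → E4) (U : Set ℂ), Patch φ U → Frame φ N₁ N₂ U →
  ∀ (θ : ℝ) (z : ℂ), z ∈ U →
  let n := nor N₁ N₂ θ z
  let m := nor N₁ N₂ (θ + Real.pi / 2) z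
  let G := gmap φ N₁ N₂ (θ, z)
  let ρ := rad (φ z) n
  ContDiffAt ℝ ∞ (gmap φ N₁ N₂) (θ, z) ∧ ‖n‖ = 1 ∧ ‖m‖ = 1 ∧ ⟪n, m⟫ = 0 ∧ ‖G‖ = 1 ∧
  0 < ρ ∧ ρ < 1 ∧
  (∀ v : ℂ, ⟪n, d1 φ v z⟫ = 0 ∧ ⟪m, d1 φ v z⟫ = 0) ∧
  (∀ q : ℝ × ℂ, ⟪G, fderiv ℝ (gmap φ N₁ N₂) (θ, z) q⟫ = 0) ∧
  (∀ v : ℂ, ∃ (w : E4) (δ : ℝ), (1 - ρ) • fderiv ℝ (gmap φ N₁ N₂) (θ, z) (0, v) =
    w + δ • (n + G) ∧ ⟪n, w⟫ = 0 ∧ ∀ u : ℂ, ⟪d1 φ u z, w⟫ = -exc φ n v u z) ∧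
  (∃ δ : ℝ, (1 - ρ) • fderiv ℝ (gmap φ N₁ N₂) (θ, z) (1, 0) = ρ • m + δ • (n + G))

/-- SYM: the second derivatives are symmetric. -/
def St_SYM : Prop := ∀ (φ : ℂ → E4) (z : ℂ), ContDiffAt ℝ ∞ φ z → ∀ u v : ℂ,
  d2 φ u v z = d2 φ v u z

/-- DET: Jacobian determinant of `cmap`. -/
def St_DET : Prop := ∀ (φ N₁ N₂ : ℂ → E4) (U : Set ℂ), Patch φ U → Frame φ N₁ N₂ U →
  ∀ x : E4, zc x ∈ U →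
    ContDiffAt ℝ ∞ (cmap φ N₁ N₂) x ∧
    |(fderiv ℝ (cmap φ N₁ N₂) x).det| = |x 3| ^ 3 * dens0 φ (nor N₁ N₂ (x 2) (zc x)) (zc x)

/-- COUNT: multiplicities in the change of variables. -/
def St_COUNT : Prop := ∀ (F : E4 → E4) (R : Set E4), IsOpen R → ContDiffOn ℝ ∞ F R →
  (∀ x ∈ R, (fderiv ℝ F x).det ≠ 0) → ∀ (A : Set E4), MeasurableSet A → A ⊆ R →
  ∀ (B : Set E4) (k : ℕ), (∀ y ∈ B, ∃ s : Finset E4, s.card = k ∧ ∀ x ∈ s, x ∈ A ∧ F x = y) →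
  k * volume B ≤ ∫⁻ x in A, ENNReal.ofReal |(fderiv ℝ F x).det|

/-- FUB: integration in coordinates. -/
def St_FUB : Prop := ∀ (U : Set ℂ) (f : ℝ × ℂ → ℝ≥0∞), MeasurableSet U →
  AEMeasurable f (volume.restrict (Ico 0 (2 * Real.pi) ×ˢ U)) →
  ∫⁻ x in {x : E4 | zc x ∈ U ∧ x 2 ∈ Ico 0 (2 * Real.pi) ∧ x 3 ∈ Ioo 0 1},
      ENNReal.ofReal (x 3 ^ 3) * f (x 2, zc x) =
    ENNReal.ofReal (1 / 4) * ∫⁻ z in U, ∫⁻ θ in Ico 0 (2 * Real.pi), f (θ, z)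

/-- CONT: continuity of the coefficients. -/
def St_CONT : Prop := ∀ (φ N₁ N₂ : ℂ → E4) (U : Set ℂ), Patch φ U → Frame φ N₁ N₂ U →
  ContinuousOn (fun q : ℝ × ℂ => exc φ (nor N₁ N₂ q.1 q.2) 1 1 q.2) (univ ×ˢ U) ∧
  ContinuousOn (fun q : ℝ × ℂ => excDet φ (nor N₁ N₂ q.1 q.2) q.2) (univ ×ˢ U) ∧
  ContinuousOn (fun q : ℝ × ℂ => dens0 φ (nor N₁ N₂ q.1 q.2) q.2) (univ ×ˢ U)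

/-- NULL: the cone over a surface is a null set. -/
def St_NULL : Prop := ∀ (φ : ℂ → E4) (W : Set ℂ), IsOpen W → ContDiffOn ℝ ∞ φ W →
  volume {y : E4 | ∃ r : ℝ, ∃ z ∈ W, y = r • φ z} = 0

/-- FRAME: unit normal vectors in terms of the frame. -/
def St_FRAME : Prop := ∀ (φ N₁ N₂ : ℂ → E4) (U : Set ℂ), Patch φ U → Frame φ N₁ N₂ U →
  ∀ z ∈ U, ∀ n : E4, ‖n‖ = 1 → (∀ v : ℂ, ⟪n, d1 φ v z⟫ = 0) →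
    ∃ θ ∈ Ico 0 (2 * Real.pi), n = nor N₁ N₂ θ z

/-- TRANS: behaviour at the boundary. -/
def St_TRANS : Prop := ∀ (ξ : E4) (φ : ℂ → E4) (z v : ℂ), ‖ξ‖ = 1 → ContDiffAt ℝ ∞ φ z →
  ‖φ z‖ = 1 → φ z ≠ ξ → 0 < fderiv ℝ (fun w => ‖φ w‖ ^ 2) z v →
  0 < fderiv ℝ (fun w => ‖push ξ (φ w)‖ ^ 2) z v

end Pool.Agent.Y503.RB
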