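import Pool.Agent.Y503.RB.Loc

/-!
Slice discs of small horospherical curvature.
-/

set_option autoImplicit false

namespace Pool.Agent.Y503.RB

open scoped ContDiff RealInnerProductSpace ENNReal Topology
open MeasureTheory Set Metric Filter

/-- Smooth parametrised disc, properly and transversally embedded in the closed unit ball of
four-space. -/
structure SliceDisc (φ : ℂ → E4) : Prop where
  smooth : ∃ W : Set ℂ, IsOpen W ∧ closedBall 0 1 ⊆ W ∧ ContDiffOn ℝ ∞ φ W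
  inj : InjOn φ (closedBall 0 1)
  imm : ∀ z ∈ closedBall (0 : ℂ) 1, Function.Injective (fderiv ℝ φ z)
  inside : ∀ z ∈ ball (0 : ℂ) 1, ‖φ z‖ < 1
  bdry : ∀ z ∈ sphere (0 : ℂ) 1, ‖φ z‖ = 1
  trans : ∀ z ∈ sphere (0 : ℂ) 1, 0 < fderiv ℝ (fun w => ‖φ w‖ ^ 2) z z

/-- `|φ|²` is a Morse function on the open disc with at most `m` local maxima. -/
structure MorseDisc (φ : ℂ → E4) (m : ℕ) : Prop where
  morse : ∀ z ∈ ball (0 : ℂ) 1, fderiv ℝ (fun w => ‖φ w‖ ^ 2) z = 0 → ∀ u : ℂ,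
    (∀ v : ℂ, fderiv ℝ (fderiv ℝ (fun w => ‖φ w‖ ^ 2)) z u v = 0) → u = 0
  maxima : {z : ℂ | z ∈ ball (0 : ℂ) 1 ∧ IsLocalMax (fun w => ‖φ w‖ ^ 2) z}.encard ≤ m

theorem SliceDisc.patch {φ : ℂ → E4} (h : SliceDisc φ) : Patch φ (ball 0 1) := by
  obtain ⟨W, hW, hsub, hs⟩ := h.smooth
  exact ⟨isOpen_ball, hs.mono (ball_subset_closedBall.trans hsub),
    fun z hz => h.imm z (ball_subset_closedBall hz), h.inside⟩

theorem push_imm (hTh : St_THETA) {ξ : E4} (hξ : ‖ξ‖ = 1) {φ : ℂ → E4} {z : ℂ}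
    (hs : ContDiffAt ℝ ∞ φ z) (hn : φ z ≠ ξ) (hi : Function.Injective (fderiv ℝ φ z)) :
    Function.Injective (fderiv ℝ (fun w => push ξ (φ w)) z) := by
  obtain ⟨-, -, -, h1, h2⟩ := hTh ξ hξ (φ z) hn
  have d1 : DifferentiableAt ℝ (push ξ) (φ z) := h1.differentiableAt (by simp)
  have d2 : DifferentiableAt ℝ (pull ξ) (push ξ (φ z)) := h2.differentiableAt (by simp)
  have d3 : DifferentiableAt ℝ φ z := hs.differentiableAt (by simp)
  have e1 : fderiv ℝ (fun w => push ξ (φ w)) z = (fderiv ℝ (push ξ) (φ z)).comp (fderiv ℝ φ z) :=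
    fderiv_comp z d1 d3
  have e2 : (fun x => pull ξ (push ξ x)) =ᶠ[𝓝 (φ z)] id := by
    filter_upwards [isOpen_ne.mem_nhds hn] with x hx
    exact (hTh ξ hξ x hx).2.2.1
  have e3 : (fderiv ℝ (pull ξ) (push ξ (φ z))).comp (fderiv ℝ (push ξ) (φ z)) =
      ContinuousLinearMap.id ℝ E4 := by
    rw [← fderiv_comp (φ z) d2 d1]
    exact (e2.fderiv_eq).trans fderiv_id
  have h3 : Function.Injective (fderiv ℝ (push ξ) (φ z)) := by
    intro a b hab
    have := congrArg (fderiv ℝ (pull ξ) (push ξ (φ z))) hab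
    have h4 := fun v => congrArg (fun L : E4 →L[ℝ] E4 => L v) e3
    simp only [ContinuousLinearMap.comp_apply, ContinuousLinearMap.id_apply] at h4
    rwa [h4, h4] at this
  rw [e1]
  exact h3.comp hi

/-- The pushed disc. -/
theorem slice_push (hTh : St_THETA) (hTr : St_TRANS) {ξ : E4} (hξ : ‖ξ‖ = 1) {φ : ℂ → E4}
    (h : SliceDisc φ) {W : Set ℂ} (hW : IsOpen W) (hsub : closedBall 0 1 ⊆ W)
    (hs : ContDiffOn ℝ ∞ φ W) (hne : ∀ z ∈ W, φ z ≠ ξ) :
    SliceDisc (fun w => push ξ (φ w)) ∧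
      ∀ z ∈ sphere (0 : ℂ) 1, push ξ (φ z) = φ z := by
  have hat : ∀ z ∈ W, ContDiffAt ℝ ∞ φ z := fun z hz => hs.contDiffAt (hW.mem_nhds hz)
  refine ⟨⟨⟨W, hW, hsub, ?_⟩, ?_, ?_, ?_, ?_, ?_⟩, ?_⟩
  · intro z hz
    exact ((hTh ξ hξ (φ z) (hne z hz)).2.2.2.1.comp z (hat z hz)).contDiffWithinAt
  · intro a ha b hb hab
    have h1 := (hTh ξ hξ (φ a) (hne a (hsub ha))).2.2.1
    have h2 := (hTh ξ hξ (φ b) (hne b (hsub hb))).2.2.1
    apply h.inj ha hb
    rw [← h1, ← h2]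
    exact congrArg (pull ξ) hab
  · intro z hz
    exact push_imm hTh hξ (hat z (hsub hz)) (hne z (hsub hz)) (h.imm z hz)
  · intro z hz
    show ‖push ξ (φ z)‖ < 1
    rw [(hTh ξ hξ (φ z) (hne z (hsub (ball_subset_closedBall hz)))).1, Real.exp_lt_one_iff]
    have := ht_pos hξ (h.inside z hz)
    linarith
  · intro z hz
    show ‖push ξ (φ z)‖ = 1
    rw [(hTh ξ hξ (φ z) (hne z (hsub (sphere_subset_closedBall hz)))).2.1 (h.bdry z hz)]
    exact h.bdry z hz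
  · intro z hz
    have hz' := hsub (sphere_subset_closedBall hz)
    exact hTr ξ φ z z hξ (hat z hz') (h.bdry z hz) (hne z hz') (h.trans z hz)
  · intro z hz
    exact (hTh ξ hξ (φ z) (hne z (hsub (sphere_subset_closedBall hz)))).2.1 (h.bdry z hz)

/-- Finiteness from a bound for finite sets. -/
theorem encard_le_of_finset {α : Type*} {S : Set α} {m : ℕ}
    (h : ∀ s : Finset α, (∀ x ∈ s, x ∈ S) → s.card ≤ m) : S.encard ≤ m := by
  by_contra hc
  push Not at hc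
  have h1 : ((m + 1 : ℕ) : ℕ∞) ≤ S.encard := by
    have := Order.add_one_le_of_lt hc
    exact_mod_cast this
  obtain ⟨t, ht, hcard⟩ := Set.exists_subset_encard_eq h1
  have hfin : t.Finite := Set.finite_of_encard_eq_coe hcard
  have h2 : hfin.toFinset.card = m + 1 := by
    have := hfin.encard_eq_coe_toFinset_card
    rw [hcard] at this
    exact_mod_cast this.symm
  have h3 := h hfin.toFinset (fun x hx => ht (by simpa using hx))
  omega

theorem main_disc (hTh : St_THETA) (hH : St_HESS) (hSO : St_SOC) (hE : St_EXPF) (hS : St_SYM)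
    (hDet : St_DET) (hDG : St_DG) (hC : St_CONT) (hFub : St_FUB) (hNu : St_NULL)
    (hFr : St_FRAME) (hTr : St_TRANS)
    (φ N₁ N₂ : ℂ → E4) (h : SliceDisc φ) (hF : Frame φ N₁ N₂ (ball 0 1)) (m : ℕ)
    (hT : curv φ N₁ N₂ (ball 0 1) < ENNReal.ofReal (2 * Real.pi ^ 2 * (m + 1))) :
    ∃ ξ : E4, ‖ξ‖ = 1 ∧ (∀ z ∈ closedBall (0 : ℂ) 1, φ z ≠ ξ) ∧
      SliceDisc (fun w => push ξ (φ w)) ∧
      (∀ z ∈ sphere (0 : ℂ) 1, push ξ (φ z) = φ z) ∧
      MorseDisc (fun w => push ξ (φ w)) m := by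
  classical
  obtain ⟨W, hW, hsub, hs⟩ := h.smooth
  have hP := h.patch
  obtain ⟨y, hy0, hy1, hyZ, hreg, hcnt⟩ := core hC hDet hDG hFub (ι := Unit)
    (fun _ => φ) (fun _ => N₁) (fun _ => N₂) (fun _ => ball 0 1) (fun _ => ball 0 1)
    (fun _ => hP) (fun _ => hF) (fun _ => isOpen_ball.measurableSet) (fun _ => subset_rfl)
    _ (hNu φ W hW hs) m (by simpa using hT)
  set r := ‖y‖ with hr
  set ξ : E4 := r⁻¹ • y with hξd
  have hξ : ‖ξ‖ = 1 := by
    rw [hξd, norm_smul, Real.norm_eq_abs, abs_of_pos (inv_pos.mpr hy0), ← hr,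
      inv_mul_cancel₀ hy0.ne']
  have hyr : r • ξ = y := by
    rw [hξd, smul_smul, mul_inv_cancel₀ hy0.ne', one_smul]
  have hne : ∀ z ∈ W, φ z ≠ ξ := by
    intro z hz he
    exact hyZ ⟨r, z, hz, by rw [he, hyr]⟩
  have hreg' : ∀ x : E4, zc x ∈ ball (0 : ℂ) 1 → cmap φ N₁ N₂ x = r • ξ →
      (fderiv ℝ (cmap φ N₁ N₂) x).det ≠ 0 := by
    intro x hx hxy
    exact hreg () x hx (by rw [hxy, hyr])
  obtain ⟨hs1, hs2⟩ := slice_push hTh hTr hξ h hW hsub hs hne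
  refine ⟨ξ, hξ, fun z hz => hne z (hsub hz), hs1, hs2, ?_, ?_⟩
  · intro z hz hc u hu
    obtain ⟨θ, hθ, h1, h2, ⟨κ, hκ, h3⟩, h4⟩ :=
      crit hTh hH hSO hE hS hDet hFr hP hF hξ hreg' hz hc
    have hsm : ContDiffAt ℝ ∞ φ z := hP.smooth.contDiffAt (hP.isOpen.mem_nhds hz)
    refine nondeg hS hsm h2 hκ (fun v => ?_)
    rw [← h3 u v]
    exact hu v
  · refine encard_le_of_finset fun s hs' => ?_
    -- the point belonging to a local maximum
    have hpt : ∀ z : ℂ, ∃ θ : ℝ, (z ∈ s → θ ∈ Ico 0 (2 * Real.pi) ∧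
        cmap φ N₁ N₂ (mk4 z θ r) = y ∧ Inner φ (nor N₁ N₂ θ z) z) := by
      intro z
      by_cases hz : z ∈ s
      · obtain ⟨hz1, hz2⟩ := hs' z hz
        have hc : fderiv ℝ (fun w => ‖push ξ (φ w)‖ ^ 2) z = 0 := hz2.fderiv_eq_zero
        obtain ⟨θ, hθ, h1, h2, -, h4⟩ :=
          crit hTh hH hSO hE hS hDet hFr hP hF hξ hreg' hz1 hc
        exact ⟨θ, fun _ => ⟨hθ, by rw [h1, hyr], h4 hz2⟩⟩
      · exact ⟨0, fun h => absurd h hz⟩
    choose θ hθ using hpt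
    have hinj : Function.Injective (fun z : ℂ => ((), mk4 z (θ z) r)) := by
      intro a b hab
      have := congrArg (fun p : Unit × E4 => zc p.2) hab
      simpa using this
    have := hcnt (s.map ⟨_, hinj⟩) ?_
    · simpa using this
    · intro p hp
      obtain ⟨z, hz, rfl⟩ := Finset.mem_map.mp hp
      obtain ⟨h1, h2, h3⟩ := hθ z hz
      simp only [Function.Embedding.coeFn_mk, mk4_zc, mk4_two, mk4_three]
      exact ⟨(hs' z hz).1, h3, ⟨hy0, hy1⟩, h1, h2⟩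

end Pool.Agent.Y503.RB
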