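import Pool.Agent.Y503.RB.Surf
import Pool.Agent.Y614.RB.THETA
import Pool.Agent.Y141.RB.Hess
import Pool.Agent.Y640.RB.Calc
import Pool.Agent.Y475.RB.Jac
import Pool.Agent.Y692.RB.DG
import Pool.Agent.Y421.RB.Det
import Pool.Agent.Y919.RB.FUB
import Pool.Agent.Y349.RB.CONT
import Pool.Agent.Y977.RB.NFT
import Pool.Agent.Y297.RB.Lf
import Pool.Agent.Y429.RB.IND
import Pool.Agent.Y275.RB.Diffeo
import Pool.Agent.Y434.RB.BP
import Pool.Agent.Y31.RB.SURF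
import Pool.Agent.Y487.RB.LP
import Pool.Agent.Y614.RB.CONE
import Pool.Agent.Y232.RB.Ref

/-!
The assembled theorems.
-/

set_option autoImplicit false

namespace Pool.Agent.Y503.RB

open scoped ContDiff RealInnerProductSpace ENNReal Topology
open MeasureTheory Set Metric

theorem a_det : St_DET :=
  Pool.Agent.Y421.RB.det_of Pool.Agent.Y475.RB.jac Pool.Agent.Y692.RB.dg Pool.Agent.Y640.RB.sym

theorem a_ref : St_REF :=
  Pool.Agent.Y232.RB.Ref.ref_of Pool.Agent.Y297.RB.lf Pool.Agent.Y429.RB.IND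

theorem a_bp : St_BP :=
  Pool.Agent.Y434.RB.bp_of Pool.Agent.Y614.RB.theta Pool.Agent.Y977.RB.trans
    Pool.Agent.Y275.RB.diffeo

theorem a_surf : St_SURF :=
  Pool.Agent.Y31.RB.surf_of Pool.Agent.Y614.RB.theta Pool.Agent.Y275.RB.diffeo a_bp

/-- Slice discs. -/
theorem disc (φ : ℂ → E4) (h : SliceDisc φ) (m : ℕ)
    (hT : ∫⁻ z in ball (0 : ℂ) 1, curvAt φ z < ENNReal.ofReal (2 * Real.pi ^ 2 * (m + 1))) :
    ∃ ξ : E4, ‖ξ‖ = 1 ∧ (∀ z ∈ closedBall (0 : ℂ) 1, φ z ≠ ξ) ∧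
      SliceDisc (fun w => push ξ (φ w)) ∧
      (∀ z ∈ sphere (0 : ℂ) 1, push ξ (φ z) = φ z) ∧
      MorseDisc (fun w => push ξ (φ w)) m :=
  main_disc2 Pool.Agent.Y614.RB.theta Pool.Agent.Y141.RB.t_HESS Pool.Agent.Y640.RB.soc
    Pool.Agent.Y640.RB.expf Pool.Agent.Y640.RB.sym a_det Pool.Agent.Y692.RB.dg
    Pool.Agent.Y349.RB.cont Pool.Agent.Y919.RB.FUB Pool.Agent.Y977.RB.null
    Pool.Agent.Y977.RB.frame Pool.Agent.Y977.RB.trans a_ref φ h m hT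

/-- Compact surfaces. -/
theorem surfaces (F : Set E4) (h : PSurf F) (m : ℕ)
    (hT : totalCurv F < ENNReal.ofReal (2 * Real.pi ^ 2 * (m + 1))) :
    ∃ ξ : E4, ‖ξ‖ = 1 ∧ ξ ∉ F ∧
      (∀ x ∈ F, ContDiffAt ℝ ∞ (push ξ) x ∧ ContDiffAt ℝ ∞ (pull ξ) (push ξ x) ∧
        pull ξ (push ξ x) = x) ∧
      (∀ x ∈ F, ‖x‖ = 1 → push ξ x = x) ∧
      PSurf (push ξ '' F) ∧ push ξ '' F ∩ sphere 0 1 = F ∩ sphere 0 1 ∧
      MorseSurf (push ξ '' F) m :=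
  main_surf Pool.Agent.Y614.RB.theta Pool.Agent.Y141.RB.t_HESS Pool.Agent.Y640.RB.soc
    Pool.Agent.Y640.RB.expf Pool.Agent.Y640.RB.sym a_det Pool.Agent.Y692.RB.dg
    Pool.Agent.Y349.RB.cont Pool.Agent.Y919.RB.FUB
    Pool.Agent.Y977.RB.frame a_ref a_bp a_surf Pool.Agent.Y487.RB.lp
    Pool.Agent.Y614.RB.cone Pool.Agent.Y275.RB.diffeo F h m hT

end Pool.Agent.Y503.RB
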