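import Pool.Agent.Y503.RB.Stm

/-!
Change of variables with multiplicities.
-/

set_option autoImplicit false

namespace Pool.Agent.Y503.RB

open scoped ContDiff RealInnerProductSpace ENNReal
open MeasureTheory Set

theorem count2 (F : E4 → E4) (R : Set E4) (hR : IsOpen R) (hF : ContDiffOn ℝ ∞ F R)
    (hd : ∀ x ∈ R, (fderiv ℝ F x).det ≠ 0) (A : Set E4) (hA : MeasurableSet A) (hAR : A ⊆ R) :
    ∃ c : E4 → ℝ≥0∞, Measurable c ∧ ∫⁻ y, c y ≤ ∫⁻ x in A, ENNReal.ofReal |(fderiv ℝ F x).det| ∧
      ∀ (y : E4) (s : Finset E4), (∀ x ∈ s, x ∈ A ∧ F x = y) → (s.card : ℝ≥0∞) ≤ c y := by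
  classical
  -- local injectivity
  have hloc : ∀ x ∈ R, ∃ W : Set E4, IsOpen W ∧ x ∈ W ∧ W ⊆ R ∧ InjOn F W := by
    intro x hx
    have h1 : ContDiffAt ℝ ∞ F x := hF.contDiffAt (hR.mem_nhds hx)
    have h2 : ContDiffAt ℝ 1 F x := h1.of_le (by exact_mod_cast le_top)
    have h3 : HasStrictFDerivAt F (fderiv ℝ F x) x := h2.hasStrictFDerivAt (by norm_num)
    have h4 : IsUnit (fderiv ℝ F x).det := isUnit_iff_ne_zero.mpr (hd x hx)
    let e : E4 ≃L[ℝ] E4 := (fderiv ℝ F x).toContinuousLinearEquivOfDetNeZero (hd x hx)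
    have he : (e : E4 →L[ℝ] E4) = fderiv ℝ F x := by
      ext1 v
      rfl
    have h5 : HasStrictFDerivAt F (e : E4 →L[ℝ] E4) x := by rw [he]; exact h3
    let p := h5.toOpenPartialHomeomorph F
    refine ⟨p.source ∩ R, p.open_source.inter hR, ⟨h5.mem_toOpenPartialHomeomorph_source, hx⟩,
      inter_subset_right, ?_⟩
    have h6 : InjOn p p.source := p.injOn
    exact fun a ha b hb hab => h6 ha.1 hb.1 hab
  choose! W hWo hxW hWR hWi using hloc
  obtain ⟨t, htR, htc, htU⟩ := TopologicalSpace.countable_cover_nhdsWithin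
    (f := W) (s := R) (fun x hx => mem_nhdsWithin_of_mem_nhds ((hWo x hx).mem_nhds (hxW x hx)))
  rcases t.eq_empty_or_nonempty with he | hne
  · have hRe : R = ∅ := by
      rw [he] at htU
      simpa using htU
    have hAe : A = ∅ := by
      rw [hRe] at hAR
      exact subset_empty_iff.mp hAR
    refine ⟨fun _ => 0, measurable_const, by simp, ?_⟩
    intro y s hs
    have : s = ∅ := by
      rw [Finset.eq_empty_iff_forall_notMem]
      intro x hx
      have := (hs x hx).1
      rw [hAe] at this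
      exact this
    rw [this]
    simp
  obtain ⟨f, hf⟩ := htc.exists_eq_range hne
  -- enumeration
  let O : ℕ → Set E4 := fun i => W (f i)
  have hfR : ∀ i, f i ∈ R := fun i => htR (by rw [hf]; exact mem_range_self i)
  have hOo : ∀ i, IsOpen (O i) := fun i => hWo _ (hfR i)
  have hOi : ∀ i, InjOn F (O i) := fun i => hWi _ (hfR i)
  have hOR : ∀ i, O i ⊆ R := fun i => hWR _ (hfR i)
  have hcov : R ⊆ ⋃ i, O i := by
    intro x hx
    obtain ⟨y, hy, hxy⟩ := mem_iUnion₂.mp (htU hx)
    rw [hf] at hy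
    obtain ⟨i, rfl⟩ := hy
    exact mem_iUnion.mpr ⟨i, hxy⟩
  let D : ℕ → Set E4 := fun i => A ∩ disjointed O i
  have hDm : ∀ i, MeasurableSet (D i) := fun i =>
    hA.inter (MeasurableSet.disjointed (fun j => (hOo j).measurableSet) i)
  have hDO : ∀ i, D i ⊆ O i := fun i => inter_subset_right.trans (disjointed_subset O i)
  have hDd : Pairwise (Function.onFun Disjoint D) := fun i j hij =>
    (disjoint_disjointed O hij).mono inter_subset_right inter_subset_right
  have hDU : ⋃ i, D i = A := by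
    rw [← inter_iUnion, iUnion_disjointed]
    exact inter_eq_left.mpr (hAR.trans hcov)
  have hFD : ∀ i, ∀ x ∈ D i, HasFDerivWithinAt F (fderiv ℝ F x) (D i) x := by
    intro i x hx
    have h1 : ContDiffAt ℝ ∞ F x := hF.contDiffAt (hR.mem_nhds (hOR i (hDO i hx)))
    exact (h1.differentiableAt (by simp)).hasFDerivAt.hasFDerivWithinAt
  have hFm : ∀ i, MeasurableSet (F '' D i) := fun i =>
    (hDm i).image_of_continuousOn_injOn
      (hF.continuousOn.mono ((hDO i).trans (hOR i))) ((hOi i).mono (hDO i))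
  refine ⟨fun y => ∑' i, (F '' D i).indicator (fun _ => 1) y, ?_, ?_, ?_⟩
  · exact Measurable.ennreal_tsum fun i => measurable_const.indicator (hFm i)
  · rw [lintegral_tsum (fun i => (measurable_const.indicator (hFm i)).aemeasurable)]
    calc ∑' i, ∫⁻ y, (F '' D i).indicator (fun _ => (1 : ℝ≥0∞)) y
        = ∑' i, volume (F '' D i) := by
          refine tsum_congr fun i => ?_
          rw [lintegral_indicator (hFm i)]
          simp
      _ ≤ ∑' i, ∫⁻ x in D i, ENNReal.ofReal |(fderiv ℝ F x).det| := by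
          refine ENNReal.tsum_le_tsum fun i => ?_
          exact addHaar_image_le_lintegral_abs_det_fderiv volume (hDm i) (hFD i)
      _ = ∫⁻ x in A, ENNReal.ofReal |(fderiv ℝ F x).det| := by
          rw [← lintegral_iUnion hDm hDd, hDU]
  · intro y s hs
    -- index of a point
    have hidx : ∀ x : E4, ∃ i, x ∈ A → x ∈ D i := by
      intro x
      by_cases hx : x ∈ A
      · rw [← hDU] at hx
        obtain ⟨i, hi⟩ := mem_iUnion.mp hx
        exact ⟨i, fun _ => hi⟩
      · exact ⟨0, fun h => absurd h hx⟩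
    choose idx hidx using hidx
    have hinj : InjOn idx (s : Set E4) := by
      intro a ha b hb hab
      have h1 := hidx a (hs a ha).1
      have h2 := hidx b (hs b hb).1
      rw [hab] at h1
      exact hOi _ (hDO _ h1) (hDO _ h2) ((hs a ha).2.trans (hs b hb).2.symm)
    calc (s.card : ℝ≥0∞) = ∑ i ∈ s.image idx, (1 : ℝ≥0∞) := by
          rw [Finset.sum_const, Finset.card_image_of_injOn hinj]
          simp
      _ = ∑ i ∈ s.image idx, (F '' D i).indicator (fun _ => (1 : ℝ≥0∞)) y := by
          refine Finset.sum_congr rfl fun i hi => ?_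
          obtain ⟨x, hx, rfl⟩ := Finset.mem_image.mp hi
          rw [indicator_of_mem]
          exact ⟨x, hidx x (hs x hx).1, (hs x hx).2⟩
      _ ≤ ∑' i, (F '' D i).indicator (fun _ => (1 : ℝ≥0∞)) y := ENNReal.sum_le_tsum _

end Pool.Agent.Y503.RB
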