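import Pool.Agent.Y503.RB.Def3
import Pool.Agent.Y503.RB.Disc

/-!
The converse: local part.
-/

set_option autoImplicit false

namespace Pool.Agent.Y503.RB

open scoped ContDiff RealInnerProductSpace ENNReal Topology
open MeasureTheory Set Metric Filter

theorem curvAt_zero {ψ : ℂ → E4} {z : ℂ}
    (h : ∀ n : E4, ‖n‖ = 1 → (∀ v : ℂ, ⟪n, d1 ψ v z⟫ = 0) → ¬ Inner ψ n z) :
    curvAt ψ z = 0 := by
  unfold curvAt
  refine le_antisymm (iSup_le fun L => iSup_le fun hL => ?_) bot_le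
  refine le_of_eq ?_
  have : ∀ θ : ℝ, ENNReal.ofReal (dens ψ (L ⟨Real.cos θ, Real.sin θ⟩) z) = 0 := by
    intro θ
    have h1 : ‖L ⟨Real.cos θ, Real.sin θ⟩‖ = 1 := by
      rw [L.norm_map]
      have : ‖(⟨Real.cos θ, Real.sin θ⟩ : ℂ)‖ ^ 2 = 1 := by
        rw [← Complex.normSq_eq_norm_sq, Complex.normSq_mk]
        have := Real.sin_sq_add_cos_sq θ
        nlinarith
      have h0 := norm_nonneg (⟨Real.cos θ, Real.sin θ⟩ : ℂ)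
      nlinarith
    have h2 := h _ h1 (hL _)
    simp [dens, h2]
  simp [this]

theorem fin_min {α : Type*} (t : Finset α) (e : α → ℝ) (he : ∀ a ∈ t, 0 < e a) :
    ∃ ε > 0, ∀ a ∈ t, ε ≤ e a := by
  classical
  induction t using Finset.induction_on with
  | empty => exact ⟨1, one_pos, by simp⟩
  | insert a s ha ih =>
    obtain ⟨ε, h1, h2⟩ := ih (fun b hb => he b (Finset.mem_insert_of_mem hb))
    refine ⟨min ε (e a), lt_min h1 (he a (Finset.mem_insert_self _ _)), ?_⟩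
    intro b hb
    rcases Finset.mem_insert.mp hb with rfl | hb
    · exact min_le_right _ _
    · exact (min_le_left _ _).trans (h2 b hb)

/-- The function `1 - |φ|²`. -/
noncomputable def qf (φ : ℂ → E4) (w : ℂ) : ℝ := 1 - ‖φ w‖ ^ 2

/-- The radial projection. -/
noncomputable def sf (φ : ℂ → E4) (w : ℂ) : E4 := ‖φ w‖⁻¹ • φ w

theorem qf_smooth {φ : ℂ → E4} {z : ℂ} (h : ContDiffAt ℝ ∞ φ z) : ContDiffAt ℝ ∞ (qf φ) z :=
  contDiffAt_const.sub (h.norm_sq ℝ)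

theorem squeeze_eq (δ : ℝ) (h : ℝ → ℝ) (φ : ℂ → E4) :
    (fun w => squeeze δ h (φ w)) = fun w => (1 - δ * h (qf φ w)) • sf φ w := by
  funext w
  simp only [squeeze, qf, sf, smul_smul]

/-- Uniform form of `Good` near a point. -/
def LocGood (φ : ℂ → E4) (z₀ : ℂ) (ε K η c : ℝ) : Prop :=
  ∀ z ∈ ball z₀ ε, ∀ κ ∈ Ioo 0 ε, ∀ k ∈ Icc (0 : ℝ) 1,
    (c - K * κ ≤ qf φ z → qf φ z ≤ c - η * κ → 3 / 4 ≤ k) → Good (qf φ) (sf φ) κ k z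

/-- The three types of points. -/
def Typ (φ : ℂ → E4) (z : ℂ) : Prop :=
  fderiv ℝ (qf φ) z ≠ 0 ∨ (0 < qf φ z ∧ fderiv ℝ (qf φ) z = 0 ∧
    ((∀ v : ℂ, v ≠ 0 → fderiv ℝ (fderiv ℝ (qf φ)) z v v < 0) ∨ hdet (qf φ) z < 0))

theorem locgood (hSig : St_SIG) (hN : St_NCR) (hM : St_MXQ) (hSa : St_SAD)
    {φ : ℂ → E4} {z₀ : ℂ} (hs : ContDiffAt ℝ ∞ φ z₀) (h0 : φ z₀ ≠ 0)
    (hi : Function.Injective (fderiv ℝ φ z₀)) (hT : Typ φ z₀) :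
    ∃ ε > 0, ∃ K > 0, ∃ η > 0, ∃ c > 0, LocGood φ z₀ ε K η c := by
  obtain ⟨s1, s2, s3, s4⟩ := hSig φ z₀ hs h0 hi
  rcases hT with h | ⟨h1, h2, h | h⟩
  · obtain ⟨ε, hε, hg⟩ := hN (qf φ) (sf φ) z₀ (qf_smooth hs) s1 h s3
    exact ⟨ε, hε, 1, one_pos, 1, one_pos, 1, one_pos, fun z hz κ hκ k _ _ => hg z hz κ hκ k⟩
  · obtain ⟨ε, hε, hg⟩ := hM (qf φ) (sf φ) z₀ (qf_smooth hs) s1 (s4 h2) h
    exact ⟨ε, hε, 1, one_pos, 1, one_pos, 1, one_pos, fun z hz κ hκ k _ _ => hg z hz κ hκ k⟩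
  · obtain ⟨ε, hε, K, hK, η, hη, hg⟩ := hSa (qf φ) (sf φ) z₀ (qf_smooth hs) s1 (s4 h2) h2 h
    exact ⟨ε, hε, K, hK, η, hη, qf φ z₀, h1, hg⟩

theorem exists_ker (L : ℂ →L[ℝ] ℝ) : ∃ v : ℂ, v ≠ 0 ∧ L v = 0 := by
  by_cases h : L 1 = 0
  · exact ⟨1, one_ne_zero, h⟩
  · refine ⟨(L Complex.I : ℝ) • (1 : ℂ) - (L 1 : ℝ) • Complex.I, ?_, ?_⟩
    · intro h0
      have := congrArg Complex.im h0
      simp at this
      exact h this
    · rw [map_sub, map_smul, map_smul, smul_eq_mul, smul_eq_mul]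
      ring

/-- Properties of the function `h`. -/
structure HFun (h : ℝ → ℝ) (ε K η : ℝ) (C : Finset ℝ) : Prop where
  smooth : ContDiff ℝ ∞ h
  zero : h 0 = 0
  pos : ∀ s, 0 < deriv h s
  surj : Function.Surjective h
  kpos : ∀ s, 0 < s → 0 < kap h s
  klt : ∀ s, 0 < s → kap h s < ε
  dnonneg : ∀ s, 0 < s → 0 ≤ deriv (kap h) s
  dle : ∀ s, 0 < s → deriv (kap h) s ≤ 1
  zone : ∀ s, 0 < s → ∀ c ∈ C, c - K * kap h s ≤ s → s ≤ c - η * kap h s → 3 / 4 ≤ deriv (kap h) s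

theorem HFun.mono {h : ℝ → ℝ} {ε K η : ℝ} {C : Finset ℝ} (H : HFun h ε K η C) :
    StrictMono h := strictMono_of_deriv_pos H.pos

theorem hfun (hK : St_KAPPA) (ε K η : ℝ) (C : Finset ℝ) (hε : 0 < ε) (hKp : 0 < K) (hη : 0 < η)
    (hC : ∀ c ∈ C, 0 < c) : ∃ h : ℝ → ℝ, HFun h ε K η C := by
  obtain ⟨h, h1, h2, h3, h4, h5⟩ := hK ε K η C hε hKp hη hC
  exact ⟨h, h1, h2, h3, h4, fun s hs => (h5 s hs).1, fun s hs => (h5 s hs).2.1,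
    fun s hs => (h5 s hs).2.2.1, fun s hs => (h5 s hs).2.2.2.1, fun s hs => (h5 s hs).2.2.2.2⟩

theorem lim_all (hSig : St_SIG) (hL0 : St_LIM0) (hL1 : St_LIM1)
    {h : ℝ → ℝ} {ε' K' η' : ℝ} {C : Finset ℝ} (H : HFun h ε' K' η' C)
    {φ : ℂ → E4} {z₀ z : ℂ} {ε K η c : ℝ} (hG : LocGood φ z₀ ε K η c) (hc : c ∈ C)
    (h1 : ε' ≤ ε) (h2 : K ≤ K') (h3 : η' ≤ η) (hz : z ∈ ball z₀ ε)
    (hs : ContDiffAt ℝ ∞ φ z) (h0 : φ z ≠ 0) (hi : Function.Injective (fderiv ℝ φ z))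
    (hq : 0 ≤ qf φ z) (htr : qf φ z = 0 → fderiv ℝ (qf φ) z ≠ 0) :
    Lim (fun w => h (qf φ w)) (sf φ) z ∧
      (0 < h (qf φ z) ∨ (h (qf φ z) = 0 ∧ fderiv ℝ (fun w => h (qf φ w)) z ≠ 0)) := by
  obtain ⟨s1, s2, s3, s4⟩ := hSig φ z hs h0 hi
  obtain ⟨v, hv, hv0⟩ := exists_ker (fderiv ℝ (qf φ) z)
  have hex : ∃ v : ℂ, d1 (sf φ) v z ≠ 0 := ⟨v, s3 v hv hv0⟩
  rcases hq.eq_or_lt with hq | hq
  · have hq' : qf φ z = 0 := hq.symm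
    have hf0 : h (qf φ z) = 0 := by rw [hq', H.zero]
    have hd : fderiv ℝ (fun w => h (qf φ w)) z = deriv h (qf φ z) • fderiv ℝ (qf φ) z := by
      have e1 : HasDerivAt h (deriv h (qf φ z)) (qf φ z) :=
        (H.smooth.differentiable (by simp)).differentiableAt.hasDerivAt
      have e2 : HasFDerivAt (qf φ) (fderiv ℝ (qf φ) z) z :=
        ((qf_smooth hs).differentiableAt (by simp)).hasFDerivAt
      exact (e1.comp_hasFDerivAt z e2).fderiv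
    have hd0 : fderiv ℝ (fun w => h (qf φ w)) z ≠ 0 := by
      rw [hd]
      exact smul_ne_zero (H.pos _).ne' (htr hq')
    exact ⟨hL0 _ _ z s1 s2 hf0 hd0 hex, Or.inr ⟨hf0, hd0⟩⟩
  · have hf : 0 < h (qf φ z) := by
      have := H.mono hq
      rwa [H.zero] at this
    refine ⟨hL1 (qf φ) h (sf φ) z H.smooth (qf_smooth hs) s1 s2 hex hf (H.pos _) ?_, Or.inl hf⟩
    refine hG z hz _ ⟨H.kpos _ hq, (H.klt _ hq).trans_le h1⟩ _ ⟨H.dnonneg _ hq, H.dle _ hq⟩ ?_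
    intro g1 g2
    have hk := H.kpos _ hq
    refine H.zone _ hq c hc ?_ ?_
    · nlinarith
    · nlinarith

theorem local_zero (hTu : St_TUBE) (hSq : St_SQE) (hSig : St_SIG)
    {h : ℝ → ℝ} {ε' K' η' : ℝ} {C : Finset ℝ} (H : HFun h ε' K' η' C)
    {φ : ℂ → E4} {U : Set ℂ} (hU : IsOpen U) (hs : ContDiffOn ℝ ∞ φ U)
    (h0 : ∀ w ∈ U, φ w ≠ 0) (hi : ∀ w ∈ U, Function.Injective (fderiv ℝ φ w))
    {z : ℂ} (hz : z ∈ U) (hL : Lim (fun w => h (qf φ w)) (sf φ) z)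
    (hL' : 0 < h (qf φ z) ∨ (h (qf φ z) = 0 ∧ fderiv ℝ (fun w => h (qf φ w)) z ≠ 0)) :
    ∃ ε > 0, ball z ε ⊆ U ∧ ∀ δ ∈ Ioo 0 ε, δ * h 1 < 1 → ∀ w ∈ ball z ε, ‖φ w‖ < 1 →
      curvAt (fun w => squeeze δ h (φ w)) w = 0 := by
  have hat : ∀ w ∈ U, ContDiffAt ℝ ∞ φ w := fun w hw => hs.contDiffAt (hU.mem_nhds hw)
  have hfat : ∀ w ∈ U, ContDiffAt ℝ ∞ (fun w => h (qf φ w)) w := fun w hw =>
    H.smooth.contDiffAt.comp w (qf_smooth (hat w hw))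
  obtain ⟨ε₁, hε₁, hb⟩ := hTu (fun w => h (qf φ w)) (sf φ) z (hfat z hz)
    (hSig φ z (hat z hz) (h0 z hz) (hi z hz)).1 hL' hL
  obtain ⟨ε₂, hε₂, hb₂⟩ := Metric.isOpen_iff.mp hU z hz
  refine ⟨min ε₁ ε₂, lt_min hε₁ hε₂, (ball_subset_ball (min_le_right _ _)).trans hb₂, ?_⟩
  intro δ hδ hδ1 w hw hw1
  have hwU : w ∈ U := hb₂ (ball_subset_ball (min_le_right _ _) hw)
  have hw' : w ∈ ball z ε₁ := ball_subset_ball (min_le_left _ _) hw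
  have hq : 0 < qf φ w := by
    unfold qf
    nlinarith [norm_nonneg (φ w)]
  have hf : 0 < h (qf φ w) := by
    have := H.mono hq
    rwa [H.zero] at this
  have hq1 : qf φ w < 1 := by
    unfold qf
    have := norm_pos_iff.mpr (h0 w hwU)
    nlinarith
  have hf1 : δ * h (qf φ w) < 1 := by
    have := H.mono hq1
    nlinarith [hδ.1]
  rw [squeeze_eq]
  refine curvAt_zero fun n hn hn2 hin => ?_
  obtain ⟨s1, s2, -, -⟩ := hSig φ w (hat w hwU) (h0 w hwU) (hi w hwU)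
  obtain ⟨ξ, β, hξ, hβ, hbad⟩ := hSq (fun w => h (qf φ w)) (sf φ) δ w n (hfat w hwU) s1 s2 hδ.1
    hf hf1 hn hn2 hin
  exact hb δ ⟨hδ.1, hδ.2.trans_le (min_le_left _ _)⟩ w hw' ξ hξ β hβ hbad

theorem rel_imm {Φ Ψ : E4 → E4} {D D' : Set E4} (hR : RelDiffeo Φ Ψ D D') {φ : ℂ → E4} {z : ℂ}
    (hs : ContDiffAt ℝ ∞ φ z) (hn : φ z ∈ D) (hi : Function.Injective (fderiv ℝ φ z)) :
    Function.Injective (fderiv ℝ (fun w => Φ (φ w)) z) := by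
  obtain ⟨h0, -, h1⟩ := hR.map _ hn
  obtain ⟨-, -, h2⟩ := hR.map' _ h0
  have d1 : DifferentiableAt ℝ Φ (φ z) := h1.differentiableAt (by simp)
  have d2 : DifferentiableAt ℝ Ψ (Φ (φ z)) := h2.differentiableAt (by simp)
  have d3 : DifferentiableAt ℝ φ z := hs.differentiableAt (by simp)
  have e1 : fderiv ℝ (fun w => Φ (φ w)) z = (fderiv ℝ Φ (φ z)).comp (fderiv ℝ φ z) :=
    fderiv_comp z d1 d3
  have e2 : (fun x => Ψ (Φ x)) =ᶠ[𝓝 (φ z)] id := by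
    filter_upwards [hR.isOpen.mem_nhds hn] with x hx
    exact (hR.map x hx).2.1
  have e3 : (fderiv ℝ Ψ (Φ (φ z))).comp (fderiv ℝ Φ (φ z)) =
      ContinuousLinearMap.id ℝ E4 := by
    rw [← fderiv_comp (φ z) d2 d1]
    exact (e2.fderiv_eq).trans fderiv_id
  have h3 : Function.Injective (fderiv ℝ Φ (φ z)) := by
    intro a b hab
    have := congrArg (fderiv ℝ Ψ (Φ (φ z))) hab
    have h4 := fun v => congrArg (fun L : E4 →L[ℝ] E4 => L v) e3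
    simp only [ContinuousLinearMap.comp_apply, ContinuousLinearMap.id_apply] at h4
    rwa [h4, h4] at this
  rw [e1]
  exact h3.comp hi

end Pool.Agent.Y503.RB
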