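import Pool.Agent.Y503.RB.Conv

/-!
The converse for discs.
-/

set_option autoImplicit false

namespace Pool.Agent.Y503.RB

open scoped ContDiff RealInnerProductSpace ENNReal Topology
open MeasureTheory Set Metric Filter

theorem qf_fderiv (φ : ℂ → E4) :
    fderiv ℝ (qf φ) = fun w => -fderiv ℝ (fun w => ‖φ w‖ ^ 2) w := by
  funext w
  unfold qf
  exact fderiv_const_sub _

theorem qf_fderiv2 (φ : ℂ → E4) (z : ℂ) :
    fderiv ℝ (fderiv ℝ (qf φ)) z = -fderiv ℝ (fderiv ℝ (fun w => ‖φ w‖ ^ 2)) z := by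
  rw [qf_fderiv]
  exact fderiv_fun_neg

theorem typ_of (hTy : St_TYPE) {φ : ℂ → E4} {z : ℂ} (hs : ContDiffAt ℝ ∞ φ z) (h1 : ‖φ z‖ < 1)
    (hm : fderiv ℝ (fun w => ‖φ w‖ ^ 2) z = 0 → ∀ u : ℂ,
      (∀ v : ℂ, fderiv ℝ (fderiv ℝ (fun w => ‖φ w‖ ^ 2)) z u v = 0) → u = 0)
    (hmax : ¬ IsLocalMax (fun w => ‖φ w‖ ^ 2) z) : Typ φ z := by
  by_cases hc : fderiv ℝ (qf φ) z = 0
  · right
    have hq : 0 < qf φ z := by
      unfold qf
      nlinarith [norm_nonneg (φ z)]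
    refine ⟨hq, hc, hTy (qf φ) z (qf_smooth hs) hc ?_ ?_⟩
    · intro u hu
      refine hm ?_ u ?_
      · rw [qf_fderiv] at hc
        exact neg_eq_zero.mp hc
      · intro v
        have := hu v
        rw [qf_fderiv2] at this
        exact neg_eq_zero.mp this
    · intro hmin
      apply hmax
      filter_upwards [hmin] with w hw
      unfold qf at hw
      linarith
  · exact Or.inl hc

/-- Uniform constants on a compact set of points. -/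
theorem glob_h (hK : St_KAPPA) {α : Type*} (t : Finset α) (ε K η c : α → ℝ)
    (hε : ∀ a ∈ t, 0 < ε a) (hKp : ∀ a ∈ t, 0 < K a) (hη : ∀ a ∈ t, 0 < η a)
    (hc : ∀ a ∈ t, 0 < c a) :
    ∃ (h : ℝ → ℝ) (ε' K' η' : ℝ) (C : Finset ℝ), HFun h ε' K' η' C ∧
      ∀ a ∈ t, ε' ≤ ε a ∧ K a ≤ K' ∧ η' ≤ η a ∧ c a ∈ C := by
  classical
  obtain ⟨ε', h1, h2⟩ := fin_min t ε hε
  obtain ⟨η', h3, h4⟩ := fin_min t η hη
  obtain ⟨K', h5, h6⟩ := fin_min t (fun a => (K a)⁻¹) (fun a ha => inv_pos.mpr (hKp a ha))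
  obtain ⟨h, H⟩ := hfun hK ε' K'⁻¹ η' (t.image c) h1 (inv_pos.mpr h5) h3 (by
    intro c' hc'
    obtain ⟨a, ha, rfl⟩ := Finset.mem_image.mp hc'
    exact hc a ha)
  refine ⟨h, ε', K'⁻¹, η', t.image c, H, fun a ha => ⟨h2 a ha, ?_, h4 a ha,
    Finset.mem_image_of_mem c ha⟩⟩
  exact (le_inv_comm₀ h5 (hKp a ha)).mp (h6 a ha)

theorem rel_slice {Φ Ψ : E4 → E4} {D D' : Set E4} (hR : RelDiffeo Φ Ψ D D') {φ : ℂ → E4}
    (h : SliceDisc φ) {W : Set ℂ} (hW : IsOpen W) (hsub : closedBall 0 1 ⊆ W)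
    (hs : ContDiffOn ℝ ∞ φ W) (hne : ∀ z ∈ W, φ z ∈ D) :
    SliceDisc (fun w => Φ (φ w)) ∧ ∀ z ∈ sphere (0 : ℂ) 1, Φ (φ z) = φ z := by
  have hat : ∀ z ∈ W, ContDiffAt ℝ ∞ φ z := fun z hz => hs.contDiffAt (hW.mem_nhds hz)
  have hfix : ∀ z ∈ sphere (0 : ℂ) 1, Φ (φ z) = φ z := fun z hz =>
    hR.fix _ (hne z (hsub (sphere_subset_closedBall hz))) (h.bdry z hz)
  refine ⟨⟨⟨W, hW, hsub, ?_⟩, ?_, ?_, ?_, ?_, ?_⟩, hfix⟩
  · intro z hz
    exact ((hR.map _ (hne z hz)).2.2.comp z (hat z hz)).contDiffWithinAt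
  · intro a ha b hb hab
    have h1 := (hR.map _ (hne a (hsub ha))).2.1
    have h2 := (hR.map _ (hne b (hsub hb))).2.1
    apply h.inj ha hb
    rw [← h1, ← h2]
    exact congrArg Ψ hab
  · intro z hz
    exact rel_imm hR (hat z (hsub hz)) (hne z (hsub hz)) (h.imm z hz)
  · intro z hz
    exact (hR.lt_one _ (hne z (hsub (ball_subset_closedBall hz)))).mpr (h.inside z hz)
  · intro z hz
    exact (hR.eq_one _ (hne z (hsub (sphere_subset_closedBall hz)))).mpr (h.bdry z hz)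
  · intro z hz
    have hz' := hsub (sphere_subset_closedBall hz)
    obtain ⟨c, hc, he⟩ := hR.trans φ z (hne z hz') (h.bdry z hz) (hat z hz')
    rw [he]
    exact mul_pos hc (h.trans z hz)

theorem conv_disc (hK : St_KAPPA) (hSig : St_SIG) (hL0 : St_LIM0) (hL1 : St_LIM1)
    (hTu : St_TUBE) (hSq : St_SQE) (hN : St_NCR) (hM : St_MXQ) (hSa : St_SAD) (hTy : St_TYPE)
    (hSQD : St_SQD)
    (φ : ℂ → E4) (h : SliceDisc φ) (h0 : ∀ z ∈ closedBall (0 : ℂ) 1, φ z ≠ 0)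
    (hm : MorseDisc φ 0) :
    ∃ g : ℝ → ℝ, ContDiff ℝ ∞ g ∧ g 0 = 0 ∧ (∀ s, 0 < deriv g s) ∧
      ∃ δ₀ > 0, ∀ δ ∈ Ioo 0 δ₀,
        SliceDisc (fun w => squeeze δ g (φ w)) ∧
        (∀ z ∈ sphere (0 : ℂ) 1, squeeze δ g (φ z) = φ z) ∧
        ∫⁻ z in ball (0 : ℂ) 1, curvAt (fun w => squeeze δ g (φ w)) z = 0 := by
  classical
  obtain ⟨W, hW, hsub, hs⟩ := h.smooth
  -- an open set on which everything is fine
  let U : Set ℂ := {w | w ∈ W ∧ φ w ≠ 0 ∧ Function.Injective (fderiv ℝ φ w)}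
  have hcf : ContinuousOn (fderiv ℝ φ) W := hs.continuousOn_fderiv_of_isOpen hW (by simp)
  have hU : IsOpen U := by
    have e1 : IsOpen (W ∩ φ ⁻¹' {x | x ≠ 0}) := hs.continuousOn.isOpen_inter_preimage hW isOpen_ne
    have e2 : IsOpen (W ∩ fderiv ℝ φ ⁻¹' {L | Function.Injective L}) :=
      hcf.isOpen_inter_preimage hW ContinuousLinearMap.isOpen_injective
    have : U = (W ∩ φ ⁻¹' {x | x ≠ 0}) ∩ (W ∩ fderiv ℝ φ ⁻¹' {L | Function.Injective L}) := by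
      ext w
      simp only [U, mem_setOf_eq, mem_inter_iff, mem_preimage]
      tauto
    rw [this]
    exact e1.inter e2
  have hsubU : closedBall (0 : ℂ) 1 ⊆ U := fun z hz => ⟨hsub hz, h0 z hz, h.imm z hz⟩
  have hsU : ContDiffOn ℝ ∞ φ U := hs.mono fun w hw => hw.1
  have hat : ∀ w ∈ U, ContDiffAt ℝ ∞ φ w := fun w hw => hsU.contDiffAt (hU.mem_nhds hw)
  have htr : ∀ z ∈ closedBall (0 : ℂ) 1, ‖z‖ = 1 → fderiv ℝ (qf φ) z ≠ 0 := by
    intro z _ hz1 hc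
    have h1 := h.trans z (by simpa using hz1)
    rw [qf_fderiv] at hc
    have h2 : fderiv ℝ (fun w => ‖φ w‖ ^ 2) z = 0 := neg_eq_zero.mp hc
    rw [h2] at h1
    simp at h1
  have htyp : ∀ z ∈ closedBall (0 : ℂ) 1, Typ φ z := by
    intro z hz
    rcases (mem_closedBall_zero_iff.mp hz).lt_or_eq with hz1 | hz1
    · have hzb : z ∈ ball (0 : ℂ) 1 := by simpa using hz1
      refine typ_of hTy (hat z (hsubU hz)) (h.inside z hzb) (hm.morse z hzb) ?_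
      intro hmax
      have h1 := hm.maxima
      have h2 : z ∈ {z : ℂ | z ∈ ball (0 : ℂ) 1 ∧ IsLocalMax (fun w => ‖φ w‖ ^ 2) z} :=
        ⟨hzb, hmax⟩
      have h3 : {z : ℂ | z ∈ ball (0 : ℂ) 1 ∧ IsLocalMax (fun w => ‖φ w‖ ^ 2) z} = ∅ := by
        rw [← Set.encard_eq_zero]
        exact le_antisymm (by simpa using h1) bot_le
      rw [h3] at h2
      exact h2
    · exact Or.inl (htr z hz hz1)
  have hloc : ∀ z : ℂ, ∃ ε K η c : ℝ, z ∈ closedBall (0 : ℂ) 1 →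
      0 < ε ∧ 0 < K ∧ 0 < η ∧ 0 < c ∧ LocGood φ z ε K η c := by
    intro z
    by_cases hz : z ∈ closedBall (0 : ℂ) 1
    · obtain ⟨ε, h1, K, h2, η, h3, c, h4, h5⟩ := locgood hSig hN hM hSa (hat z (hsubU hz))
        (h0 z hz) (h.imm z hz) (htyp z hz)
      exact ⟨ε, K, η, c, fun _ => ⟨h1, h2, h3, h4, h5⟩⟩
    · exact ⟨0, 0, 0, 0, fun h => absurd h hz⟩
  choose ε K η c hloc using hloc
  obtain ⟨t, ht1, ht2⟩ := (isCompact_closedBall (0 : ℂ) 1).elim_nhds_subcover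
    (fun z => ball z (ε z)) (fun z hz => ball_mem_nhds z (hloc z hz).1)
  obtain ⟨g, ε', K', η', C, H, hC⟩ := glob_h hK t ε K η c
    (fun a ha => (hloc a (ht1 a ha)).1) (fun a ha => (hloc a (ht1 a ha)).2.1)
    (fun a ha => (hloc a (ht1 a ha)).2.2.1) (fun a ha => (hloc a (ht1 a ha)).2.2.2.1)
  refine ⟨g, H.smooth, H.zero, H.pos, ?_⟩
  have hloc2 : ∀ z : ℂ, ∃ e : ℝ, z ∈ closedBall (0 : ℂ) 1 → 0 < e ∧
      ∀ δ ∈ Ioo 0 e, δ * g 1 < 1 → ∀ w ∈ ball z e, ‖φ w‖ < 1 →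
        curvAt (fun w => squeeze δ g (φ w)) w = 0 := by
    intro z
    by_cases hz : z ∈ closedBall (0 : ℂ) 1
    · obtain ⟨a, ha, hza⟩ := mem_iUnion₂.mp (ht2 hz)
      obtain ⟨c1, c2, c3, c4⟩ := hC a ha
      have hq : 0 ≤ qf φ z := by
        unfold qf
        rcases (mem_closedBall_zero_iff.mp hz).lt_or_eq with hz1 | hz1
        · have := h.inside z (by simpa using hz1)
          nlinarith [norm_nonneg (φ z)]
        · rw [h.bdry z (by simpa using hz1)]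
          norm_num
      have hq0 : qf φ z = 0 → fderiv ℝ (qf φ) z ≠ 0 := by
        intro hq0
        refine htr z hz ?_
        by_contra hne
        have hlt := lt_of_le_of_ne (mem_closedBall_zero_iff.mp hz) hne
        have := h.inside z (by simpa using hlt)
        unfold qf at hq0
        nlinarith [norm_nonneg (φ z)]
      obtain ⟨l1, l2⟩ := lim_all hSig hL0 hL1 H (hloc a (ht1 a ha)).2.2.2.2 c4 c1 c2 c3 hza
        (hat z (hsubU hz)) (h0 z hz) (h.imm z hz) hq hq0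
      obtain ⟨e, he, -, he2⟩ := local_zero hTu hSq hSig H hU hsU (fun w hw => hw.2.1)
        (fun w hw => hw.2.2) (hsubU hz) l1 l2
      exact ⟨e, fun _ => ⟨he, he2⟩⟩
    · exact ⟨0, fun h => absurd h hz⟩
  choose e he using hloc2
  obtain ⟨t2, ht3, ht4⟩ := (isCompact_closedBall (0 : ℂ) 1).elim_nhds_subcover
    (fun z => ball z (e z)) (fun z hz => ball_mem_nhds z (he z hz).1)
  obtain ⟨e₀, he1, he2⟩ := fin_min t2 e (fun a ha => (he a (ht3 a ha)).1)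
  have hg1 : 0 < g 1 := by
    have := H.mono zero_lt_one
    rwa [H.zero] at this
  refine ⟨min e₀ (g 1)⁻¹, lt_min he1 (inv_pos.mpr hg1), ?_⟩
  intro δ hδ
  have hδ1 : δ * g 1 < 1 := by
    have h1 : δ < (g 1)⁻¹ := hδ.2.trans_le (min_le_right _ _)
    calc δ * g 1 < (g 1)⁻¹ * g 1 := mul_lt_mul_of_pos_right h1 hg1
      _ = 1 := inv_mul_cancel₀ hg1.ne'
  obtain ⟨Ψ, hR⟩ := hSQD δ g H.smooth H.zero H.pos H.surj hδ.1 hδ1
  obtain ⟨r1, r2⟩ := rel_slice hR h hU hsubU hsU (fun z hz => hz.2.1)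
  refine ⟨r1, r2, ?_⟩
  refine (setLIntegral_congr_fun (g := fun _ => 0) isOpen_ball.measurableSet ?_).trans (by simp)
  intro z hz
  obtain ⟨a, ha, hza⟩ := mem_iUnion₂.mp (ht4 (ball_subset_closedBall hz))
  exact (he a (ht3 a ha)).2 δ ⟨hδ.1, hδ.2.trans_le ((min_le_left _ _).trans (he2 a ha))⟩ hδ1 z hza
    (h.inside z hz)

end Pool.Agent.Y503.RB
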