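import Pool.Agent.Y503.RB.ConvDisc

/-!
The converse for surfaces.
-/

set_option autoImplicit false

namespace Pool.Agent.Y503.RB

open scoped ContDiff RealInnerProductSpace ENNReal Topology
open MeasureTheory Set Metric Filter

theorem totalCurv_zero {F : Set E4} {ι : Type} [Countable ι] (φ : ι → ℂ → E4) (U : ι → Set ℂ)
    (hP : ∀ i, Patch (φ i) (U i)) (hF : ∀ i, φ i '' U i ⊆ F)
    (hz : ∀ i, ∀ z ∈ U i, curvAt (φ i) z = 0) (hcov : F ∩ ball 0 1 ⊆ ⋃ i, φ i '' U i) :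
    totalCurv F = 0 := by
  have hemp : ∀ φ₀ : ℂ → E4, Patch φ₀ ∅ := fun φ₀ =>
    ⟨isOpen_empty, contDiffOn_empty, fun z hz => absurd hz (notMem_empty z),
      fun z hz => absurd hz (notMem_empty z)⟩
  unfold totalCurv
  refine le_antisymm ?_ bot_le
  by_cases hne : Nonempty ι
  · obtain ⟨s, hs⟩ := exists_surjective_nat ι
    refine iInf_le_of_le (fun n => φ (s n)) (iInf_le_of_le (fun n => U (s n))
      (iInf_le_of_le (fun n => U (s n)) (iInf_le_of_le ⟨fun n => ⟨hP _, hF _,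
        (hP _).isOpen.measurableSet, subset_rfl⟩, ?_⟩ ?_)))
    · intro x hx
      obtain ⟨i, hi⟩ := mem_iUnion.mp (hcov hx)
      obtain ⟨n, rfl⟩ := hs i
      exact mem_iUnion.mpr ⟨n, hi⟩
    · refine le_of_eq ?_
      have : ∀ n, ∫⁻ z in U (s n), curvAt (φ (s n)) z = 0 := fun n =>
        (setLIntegral_congr_fun (g := fun _ => 0) (hP (s n)).isOpen.measurableSet
          (fun z hz' => hz _ z hz')).trans (by simp)
      simp [this]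
  · refine iInf_le_of_le (fun _ _ => 0) (iInf_le_of_le (fun _ => ∅)
      (iInf_le_of_le (fun _ => ∅) (iInf_le_of_le ⟨fun n => ⟨hemp _, by simp,
        MeasurableSet.empty, subset_rfl⟩, ?_⟩ ?_)))
    · intro x hx
      obtain ⟨i, hi⟩ := mem_iUnion.mp (hcov hx)
      exact absurd ⟨i⟩ hne
    · simp

theorem nbhd {F V : Set E4} {φ : ℂ → E4} {U : Set ℂ} (hB : BPatch φ U) (hV : IsOpen V)
    (hF : F ∩ V = φ '' U ∩ closedBall 0 1) {z : ℂ} (hz : z ∈ U) (hzV : φ z ∈ V) {O : Set ℂ}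
    (hO : IsOpen O) (hzO : z ∈ O) :
    ∃ N : Set E4, IsOpen N ∧ φ z ∈ N ∧ N ⊆ V ∧ ∀ x ∈ F ∩ N, ∃ w ∈ U ∩ O, φ w = x := by
  have h1 : IsOpen {w : U | (w : ℂ) ∈ O} := hO.preimage continuous_subtype_val
  obtain ⟨N₁, hN₁, hN₂⟩ := hB.emb.isInducing.isOpen_iff.mp h1
  refine ⟨V ∩ N₁, hV.inter hN₁, ⟨hzV, ?_⟩, inter_subset_left, ?_⟩
  · have : (⟨z, hz⟩ : U) ∈ (fun z : U => φ z) ⁻¹' N₁ := by
      rw [hN₂]
      exact hzO
    exact this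
  · rintro x ⟨hxF, hxV, hxN⟩
    have hx : x ∈ φ '' U ∩ closedBall 0 1 := by
      rw [← hF]
      exact ⟨hxF, hxV⟩
    obtain ⟨⟨w, hw, rfl⟩, -⟩ := hx
    refine ⟨w, ⟨hw, ?_⟩, rfl⟩
    have : (⟨w, hw⟩ : U) ∈ (fun z : U => φ z) ⁻¹' N₁ := hxN
    rw [hN₂] at this
    exact this

theorem conv_surf (hK : St_KAPPA) (hSig : St_SIG) (hL0 : St_LIM0) (hL1 : St_LIM1)
    (hTu : St_TUBE) (hSq : St_SQE) (hN : St_NCR) (hM : St_MXQ) (hSa : St_SAD)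
    (hSQD : St_SQD) (hGS : St_GSURF) (hPar : St_PAR)
    (F : Set E4) (hF : PSurf F) (h0 : (0 : E4) ∉ F) (hm : MorseSurf F 0) :
    ∃ g : ℝ → ℝ, ContDiff ℝ ∞ g ∧ g 0 = 0 ∧ (∀ s, 0 < deriv g s) ∧
      ∃ δ₀ > 0, ∀ δ ∈ Ioo 0 δ₀,
        (∃ Ψ : E4 → E4, RelDiffeo (squeeze δ g) Ψ {x | x ≠ 0} {w | 1 - δ * g 1 < ‖w‖}) ∧
        PSurf (squeeze δ g '' F) ∧ squeeze δ g '' F ∩ sphere 0 1 = F ∩ sphere 0 1 ∧
        totalCurv (squeeze δ g '' F) = 0 := by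
  classical
  choose! φ U V z hB hVo hpV hFV hzU hzp hne hty using hPar F hF h0 hm
  have hat : ∀ p ∈ F, ∀ w ∈ U p, ContDiffAt ℝ ∞ (φ p) w := fun p hp w hw =>
    (hB p hp).smooth.contDiffAt ((hB p hp).isOpen.mem_nhds hw)
  have hTyp : ∀ p ∈ F, Typ (φ p) (z p) := by
    intro p hp
    rcases hty p hp with h | ⟨h1, h2, h3⟩
    · exact Or.inl h
    · refine Or.inr ⟨?_, h2, h3⟩
      unfold qf
      rw [hzp p hp]
      nlinarith [norm_nonneg p]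
  have hloc : ∀ p ∈ F, ∃ ε K η c : ℝ, 0 < ε ∧ 0 < K ∧ 0 < η ∧ 0 < c ∧
      LocGood (φ p) (z p) ε K η c := by
    intro p hp
    obtain ⟨ε, h1, K, h2, η, h3, c, h4, h5⟩ := locgood hSig hN hM hSa (hat p hp _ (hzU p hp))
      (hne p hp _ (hzU p hp)) ((hB p hp).imm _ (hzU p hp)) (hTyp p hp)
    exact ⟨ε, K, η, c, h1, h2, h3, h4, h5⟩
  choose! ε K η c hε hKp hη hc hLG using hloc
  have hNb : ∀ p ∈ F, ∃ N : Set E4, IsOpen N ∧ p ∈ N ∧ N ⊆ V p ∧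
      ∀ x ∈ F ∩ N, ∃ w ∈ U p ∩ ball (z p) (ε p), φ p w = x := by
    intro p hp
    obtain ⟨N, h1, h2, h3, h4⟩ := nbhd (hB p hp) (hVo p hp) (hFV p hp) (hzU p hp)
      (by rw [hzp p hp]; exact hpV p hp) isOpen_ball (mem_ball_self (hε p hp))
    exact ⟨N, h1, by rwa [hzp p hp] at h2, h3, h4⟩
  choose! N hNo hpN hNV hNc using hNb
  obtain ⟨t, ht1, ht2⟩ := hF.compact.elim_nhds_subcover N
    (fun p hp => (hNo p hp).mem_nhds (hpN p hp))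
  obtain ⟨g, ε', K', η', C, H, hC⟩ := glob_h hK t ε K η c
    (fun a ha => hε a (ht1 a ha)) (fun a ha => hKp a (ht1 a ha))
    (fun a ha => hη a (ht1 a ha)) (fun a ha => hc a (ht1 a ha))
  refine ⟨g, H.smooth, H.zero, H.pos, ?_⟩
  have hloc2 : ∀ x ∈ F, ∃ (a : E4) (w : ℂ) (e : ℝ) (N' : Set E4), a ∈ F ∧ 0 < e ∧
      ball w e ⊆ U a ∧ IsOpen N' ∧ x ∈ N' ∧ (∀ y ∈ F ∩ N', ∃ w' ∈ ball w e, φ a w' = y) ∧
      ∀ δ ∈ Ioo 0 e, δ * g 1 < 1 → ∀ w' ∈ ball w e, ‖φ a w'‖ < 1 →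
        curvAt (fun w => squeeze δ g (φ a w)) w' = 0 := by
    intro x hx
    obtain ⟨a, ha, hxa⟩ := mem_iUnion₂.mp (ht2 hx)
    have haF := ht1 a ha
    obtain ⟨w, ⟨hwU, hwb⟩, hwx⟩ := hNc a haF x ⟨hx, hxa⟩
    obtain ⟨c1, c2, c3, c4⟩ := hC a ha
    have hx1 : ‖x‖ ≤ 1 := by simpa using hF.sub hx
    have hq : 0 ≤ qf (φ a) w := by
      unfold qf
      rw [hwx]
      nlinarith [norm_nonneg x]
    have hq0 : qf (φ a) w = 0 → fderiv ℝ (qf (φ a)) w ≠ 0 := by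
      intro hq0 hd
      have h1 : ‖φ a w‖ = 1 := by
        unfold qf at hq0
        nlinarith [norm_nonneg (φ a w)]
      refine (hB a haF).trans w hwU h1 ?_
      rw [qf_fderiv] at hd
      exact neg_eq_zero.mp hd
    obtain ⟨l1, l2⟩ := lim_all hSig hL0 hL1 H (hLG a haF) c4 c1 c2 c3 hwb
      (hat a haF w hwU) (hne a haF w hwU) ((hB a haF).imm w hwU) hq hq0
    obtain ⟨e, he, he1, he2⟩ := local_zero hTu hSq hSig H (hB a haF).isOpen (hB a haF).smooth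
      (hne a haF) (hB a haF).imm hwU l1 l2
    obtain ⟨N', n1, n2, n3, n4⟩ := nbhd (hB a haF) (hVo a haF) (hFV a haF) hwU
      (by rw [hwx]; exact hNV a haF hxa) isOpen_ball (mem_ball_self he)
    refine ⟨a, w, e, N', haF, he, he1, n1, by rwa [hwx] at n2, ?_, he2⟩
    intro y hy
    obtain ⟨w', ⟨-, h1⟩, h2⟩ := n4 y hy
    exact ⟨w', h1, h2⟩
  choose! a w e N' haF he heU hN'o hxN' hN'c hcurv using hloc2
  obtain ⟨t2, ht3, ht4⟩ := hF.compact.elim_nhds_subcover N'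
    (fun p hp => (hN'o p hp).mem_nhds (hxN' p hp))
  obtain ⟨e₀, he1, he2⟩ := fin_min t2 e (fun b hb => he b (ht3 b hb))
  have hg1 : 0 < g 1 := by
    have := H.mono zero_lt_one
    rwa [H.zero] at this
  refine ⟨min e₀ (g 1)⁻¹, lt_min he1 (inv_pos.mpr hg1), ?_⟩
  intro δ hδ
  have hδ1 : δ * g 1 < 1 := by
    have h1 : δ < (g 1)⁻¹ := hδ.2.trans_le (min_le_right _ _)
    calc δ * g 1 < (g 1)⁻¹ * g 1 := mul_lt_mul_of_pos_right h1 hg1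
      _ = 1 := inv_mul_cancel₀ hg1.ne'
  obtain ⟨Ψ, hR⟩ := hSQD δ g H.smooth H.zero H.pos H.surj hδ.1 hδ1
  have hFD : F ⊆ {x | x ≠ 0} := fun x hx h => h0 (h ▸ hx)
  obtain ⟨s1, s2⟩ := hGS _ _ _ _ F hR hF hFD
  refine ⟨⟨Ψ, hR⟩, s1, s2, ?_⟩
  refine totalCurv_zero (ι := {b // b ∈ t2}) (fun b w => squeeze δ g (φ (a b.1) w))
    (fun b => ball (w b.1) (e b.1) ∩ {v | ‖φ (a b.1) v‖ < 1} ∩ U (a b.1)) ?_ ?_ ?_ ?_
  · rintro ⟨b, hb⟩
    have hbF := ht3 b hb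
    have haF' := haF b hbF
    refine ⟨?_, ?_, ?_, ?_⟩
    · have h1 : IsOpen (U (a b) ∩ φ (a b) ⁻¹' {x | ‖x‖ < 1}) :=
        (hB _ haF').smooth.continuousOn.isOpen_inter_preimage (hB _ haF').isOpen
          (isOpen_lt continuous_norm continuous_const)
      have h2 : (ball (w b) (e b) ∩ {v | ‖φ (a b) v‖ < 1} ∩ U (a b)) =
          ball (w b) (e b) ∩ (U (a b) ∩ φ (a b) ⁻¹' {x | ‖x‖ < 1}) := by
        ext v
        simp only [mem_inter_iff, mem_setOf_eq, mem_preimage]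
        tauto
      rw [h2]
      exact isOpen_ball.inter h1
    · intro v hv
      exact ((hR.map _ (hne _ haF' v hv.2)).2.2.comp v (hat _ haF' v hv.2)).contDiffWithinAt
    · intro v hv
      exact rel_imm hR (hat _ haF' v hv.2) (hne _ haF' v hv.2) ((hB _ haF').imm v hv.2)
    · intro v hv
      exact (hR.lt_one _ (hne _ haF' v hv.2)).mpr hv.1.2
  · rintro ⟨b, hb⟩ _ ⟨v, hv, rfl⟩
    have hbF := ht3 b hb
    have haF' := haF b hbF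
    have h1 : φ (a b) v ∈ F ∩ V (a b) := by
      rw [hFV _ haF']
      refine ⟨⟨v, hv.2, rfl⟩, ?_⟩
      have := hv.1.2
      simp only [mem_setOf_eq] at this
      simpa using this.le
    exact ⟨_, h1.1, rfl⟩
  · rintro ⟨b, hb⟩ v hv
    exact hcurv b (ht3 b hb) δ
      ⟨hδ.1, hδ.2.trans_le ((min_le_left _ _).trans (he2 b hb))⟩ hδ1 v hv.1.1 hv.1.2
  · rintro y ⟨⟨x, hx, rfl⟩, hy⟩
    have hx0 : x ∈ {x : E4 | x ≠ 0} := hFD hx
    have hx1 : ‖x‖ < 1 := (hR.lt_one x hx0).mp (by simpa using hy)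
    obtain ⟨b, hb, hxb⟩ := mem_iUnion₂.mp (ht4 hx)
    obtain ⟨v, hv, hvx⟩ := hN'c b (ht3 b hb) x ⟨hx, hxb⟩
    refine mem_iUnion.mpr ⟨⟨b, hb⟩, v, ⟨⟨hv, ?_⟩, heU b (ht3 b hb) hv⟩, ?_⟩
    · show ‖φ (a b) v‖ < 1
      rw [hvx]
      exact hx1
    · show squeeze δ g (φ (a b) v) = squeeze δ g x
      rw [hvx]

end Pool.Agent.Y503.RB
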