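import Pool.Agent.Y503.RB.Lin
import Pool.Agent.Y503.RB.Cnt

/-!
A good point at infinity.
-/

set_option autoImplicit false

namespace Pool.Agent.Y503.RB

open scoped ContDiff RealInnerProductSpace ENNReal
open MeasureTheory Set Metric

theorem fffDet_pos {φ : ℂ → E4} {z : ℂ} (h : Function.Injective (fderiv ℝ φ z)) :
    0 < fffDet φ z := by
  set a := d1 φ 1 z with ha
  set b := d1 φ Complex.I z with hb
  have e : fffDet φ z = ⟪a, a⟫ * ⟪b, b⟫ - ⟪a, b⟫ ^ 2 := rfl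
  rw [e]
  by_contra hc
  push Not at hc
  have h1 : ‖(⟪a, a⟫ : ℝ) • b - (⟪a, b⟫ : ℝ) • a‖ ^ 2 =
      ⟪a, a⟫ * (⟪a, a⟫ * ⟪b, b⟫ - ⟪a, b⟫ ^ 2) := by
    rw [← real_inner_self_eq_norm_sq]
    simp only [inner_sub_left, inner_sub_right, inner_smul_left, inner_smul_right,
      RCLike.conj_to_real]
    rw [real_inner_comm a b]
    ring
  have h2 : 0 ≤ (⟪a, a⟫ : ℝ) := real_inner_self_nonneg
  have h3 : ‖(⟪a, a⟫ : ℝ) • b - (⟪a, b⟫ : ℝ) • a‖ ^ 2 ≤ 0 := by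
    rw [h1]
    exact mul_nonpos_of_nonneg_of_nonpos h2 hc
  have h4 : (⟪a, a⟫ : ℝ) • b - (⟪a, b⟫ : ℝ) • a = 0 := by
    have : ‖(⟪a, a⟫ : ℝ) • b - (⟪a, b⟫ : ℝ) • a‖ = 0 := by
      have := sq_nonneg ‖(⟪a, a⟫ : ℝ) • b - (⟪a, b⟫ : ℝ) • a‖
      nlinarith [norm_nonneg ((⟪a, a⟫ : ℝ) • b - (⟪a, b⟫ : ℝ) • a)]
    exact norm_eq_zero.mp this
  have h5 : fderiv ℝ φ z ((⟪a, a⟫ : ℝ) • Complex.I - (⟪a, b⟫ : ℝ) • (1 : ℂ)) = 0 := by
    rw [map_sub, map_smul, map_smul]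
    exact h4
  have h6 : (⟪a, a⟫ : ℝ) • Complex.I - (⟪a, b⟫ : ℝ) • (1 : ℂ) = 0 := by
    apply h
    rw [h5, map_zero]
  have h7 : (⟪a, a⟫ : ℝ) = 0 := by
    have h := congrArg Complex.im h6
    simp only [Complex.sub_im, Complex.smul_im, Complex.I_im, Complex.one_im, smul_eq_mul,
      Complex.zero_im] at h
    linarith
  have h8 : a = 0 := inner_self_eq_zero.mp h7
  have h9 : (1 : ℂ) = 0 := by
    apply h
    rw [map_zero]
    exact h8
  exact one_ne_zero h9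

theorem volume_ball_E4 : volume (ball (0 : E4) 1) = ENNReal.ofReal (Real.pi ^ 2 / 2) := by
  rw [EuclideanSpace.volume_ball]
  have h1 : (√Real.pi) ^ 4 = Real.pi ^ 2 := by
    have : (√Real.pi) ^ 2 = Real.pi := Real.sq_sqrt Real.pi_pos.le
    calc (√Real.pi) ^ 4 = ((√Real.pi) ^ 2) ^ 2 := by ring
      _ = _ := by rw [this]
  have h2 : Real.Gamma ((4 : ℝ) / 2 + 1) = 2 := by
    have : ((4 : ℝ) / 2 + 1) = ((2 : ℕ) : ℝ) + 1 := by norm_num
    rw [this, Real.Gamma_nat_eq_factorial]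
    norm_num
  simp only [Fintype.card_fin, ENNReal.ofReal_one, one_pow, one_mul, Nat.cast_ofNat]
  rw [h1, h2]

theorem measurable_coord (i : Fin 4) : Measurable (fun x : E4 => x i) := by
  have : Continuous (fun x : E4 => x i) := by fun_prop
  exact this.measurable

/-- One patch. -/
theorem onePatch (hC : St_CONT) (hDet : St_DET) (hDG : St_DG) (hFub : St_FUB)
    {φ N₁ N₂ : ℂ → E4} {U A : Set ℂ} (hP : Patch φ U) (hF : Frame φ N₁ N₂ U)
    (hA : MeasurableSet A) (hAU : A ⊆ U) :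
    ∃ c : E4 → ℝ≥0∞, Measurable c ∧
      ∫⁻ y, c y ≤ ENNReal.ofReal (1 / 4) * curv φ N₁ N₂ A ∧
      ∀ (y : E4) (s : Finset E4), (∀ x ∈ s, zc x ∈ A ∧
        Inner φ (nor N₁ N₂ (x 2) (zc x)) (zc x) ∧ x 3 ∈ Ioo 0 1 ∧ x 2 ∈ Ico 0 (2 * Real.pi) ∧
        cmap φ N₁ N₂ x = y) → (s.card : ℝ≥0∞) ≤ c y := by
  have hRo := isOpen_region hC hP hF
  have hsm : ContDiffOn ℝ ∞ (cmap φ N₁ N₂) (region φ N₁ N₂ U) := fun x hx =>
    (hDet φ N₁ N₂ U hP hF x hx.1).1.contDiffWithinAt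
  have hdet : ∀ x ∈ region φ N₁ N₂ U, (fderiv ℝ (cmap φ N₁ N₂) x).det ≠ 0 := by
    intro x hx h0
    have h1 := (hDet φ N₁ N₂ U hP hF x hx.1).2
    rw [h0, abs_zero] at h1
    have h2 : 0 < |x 3| ^ 3 := by
      have := hx.2.2.1
      positivity
    obtain ⟨-, -, -, -, -, hρ0, hρ1, -⟩ := hDG φ N₁ N₂ U hP hF (x 2) (zc x) hx.1
    have h3 : 0 < dens0 φ (nor N₁ N₂ (x 2) (zc x)) (zc x) := by
      have h4 := fffDet_pos (hP.imm _ hx.1)
      have h5 := hx.2.1.2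
      have h6 : 0 < 1 - rad (φ (zc x)) (nor N₁ N₂ (x 2) (zc x)) := by
        simpa using sub_pos.mpr hρ1
      unfold dens0
      have h7 : 0 < |excDet φ (nor N₁ N₂ (x 2) (zc x)) (zc x)| := abs_pos.mpr h5.ne'
      have h8 : 0 < √(fffDet φ (zc x)) := Real.sqrt_pos.mpr h4
      have h9 : 0 < rad (φ (zc x)) (nor N₁ N₂ (x 2) (zc x)) := hρ0
      positivity
    have := mul_pos h2 h3
    linarith
  have hm : MeasurableSet ({x : E4 | x ∈ region φ N₁ N₂ U ∧ zc x ∈ A ∧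
      x 2 ∈ Ico 0 (2 * Real.pi)}) := by
    refine hRo.measurableSet.inter ((continuous_zc.measurable hA).inter
      (measurable_coord 2 measurableSet_Ico))
  obtain ⟨c, hc1, hc2, hc3⟩ := count2 (cmap φ N₁ N₂) (region φ N₁ N₂ U) hRo hsm hdet _ hm
    (fun x hx => hx.1)
  refine ⟨c, hc1, hc2.trans ?_, ?_⟩
  · have hae : AEMeasurable (fun q : ℝ × ℂ => ENNReal.ofReal (dens φ (nor N₁ N₂ q.1 q.2) q.2))
        (volume.restrict (Ico 0 (2 * Real.pi) ×ˢ A)) :=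
      (aemeasurable_dens hC hP hF).mono_measure
        (Measure.restrict_mono (prod_mono subset_rfl hAU) le_rfl)
    have h1 := hFub A (fun q : ℝ × ℂ => ENNReal.ofReal (dens φ (nor N₁ N₂ q.1 q.2) q.2)) hA hae
    unfold curv
    rw [← h1]
    calc ∫⁻ x in {x : E4 | x ∈ region φ N₁ N₂ U ∧ zc x ∈ A ∧ x 2 ∈ Ico 0 (2 * Real.pi)},
          ENNReal.ofReal |(fderiv ℝ (cmap φ N₁ N₂) x).det|
        = ∫⁻ x in {x : E4 | x ∈ region φ N₁ N₂ U ∧ zc x ∈ A ∧ x 2 ∈ Ico 0 (2 * Real.pi)},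
          ENNReal.ofReal (x 3 ^ 3) *
            ENNReal.ofReal (dens φ (nor N₁ N₂ (x 2) (zc x)) (zc x)) := by
          refine setLIntegral_congr_fun hm ?_
          intro x hx
          have h2 := (hDet φ N₁ N₂ U hP hF x hx.1.1).2
          have h3 : 0 < x 3 := hx.1.2.2.1
          beta_reduce
          rw [h2, abs_of_pos h3, ENNReal.ofReal_mul (by positivity)]
          congr 2
          simp [dens, hx.1.2.1]
      _ ≤ _ := by
          refine lintegral_mono_set ?_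
          intro x hx
          exact ⟨hx.2.1, hx.2.2, hx.1.2.2⟩
  · intro y s hs
    refine hc3 y s fun x hx => ?_
    obtain ⟨h1, h2, h3, h4, h5⟩ := hs x hx
    exact ⟨⟨⟨hAU h1, h2, h3⟩, h1, h4⟩, h5⟩

/-- The good point. -/
theorem core (hC : St_CONT) (hDet : St_DET) (hDG : St_DG) (hFub : St_FUB)
    {ι : Type} [Countable ι] (φ N₁ N₂ : ι → ℂ → E4) (U A : ι → Set ℂ)
    (hP : ∀ i, Patch (φ i) (U i)) (hF : ∀ i, Frame (φ i) (N₁ i) (N₂ i) (U i))
    (hA : ∀ i, MeasurableSet (A i)) (hAU : ∀ i, A i ⊆ U i) (Z : Set E4) (hZ : volume Z = 0)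
    (m : ℕ) (hT : ∑' i, curv (φ i) (N₁ i) (N₂ i) (A i) <
      ENNReal.ofReal (2 * Real.pi ^ 2 * (m + 1))) :
    ∃ y : E4, 0 < ‖y‖ ∧ ‖y‖ < 1 ∧ y ∉ Z ∧
      (∀ i, ∀ x : E4, zc x ∈ U i → cmap (φ i) (N₁ i) (N₂ i) x = y →
        (fderiv ℝ (cmap (φ i) (N₁ i) (N₂ i)) x).det ≠ 0) ∧
      ∀ s : Finset (ι × E4), (∀ p ∈ s, zc p.2 ∈ A p.1 ∧
        Inner (φ p.1) (nor (N₁ p.1) (N₂ p.1) (p.2 2) (zc p.2)) (zc p.2) ∧ p.2 3 ∈ Ioo 0 1 ∧
        p.2 2 ∈ Ico 0 (2 * Real.pi) ∧ cmap (φ p.1) (N₁ p.1) (N₂ p.1) p.2 = y) →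
        s.card ≤ m := by
  classical
  choose c hc1 hc2 hc3 using fun i => onePatch hC hDet hDG hFub (hP i) (hF i) (hA i) (hAU i)
  let C : E4 → ℝ≥0∞ := fun y => ∑' i, c i y
  have hCm : Measurable C := Measurable.ennreal_tsum hc1
  have hCi : ∫⁻ y, C y ≤ ENNReal.ofReal (1 / 4) * ∑' i, curv (φ i) (N₁ i) (N₂ i) (A i) := by
    rw [lintegral_tsum (fun i => (hc1 i).aemeasurable), ← ENNReal.tsum_mul_left]
    exact ENNReal.tsum_le_tsum hc2
  let B : Set E4 := {y | ((m + 1 : ℕ) : ℝ≥0∞) ≤ C y}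
  let S : ι → Set E4 := fun i => cmap (φ i) (N₁ i) (N₂ i) ''
    {x | zc x ∈ U i ∧ (fderiv ℝ (cmap (φ i) (N₁ i) (N₂ i)) x).det = 0}
  have hS : ∀ i, volume (S i) = 0 := by
    intro i
    refine addHaar_image_eq_zero_of_det_fderivWithin_eq_zero volume
      (f' := fun x => fderiv ℝ (cmap (φ i) (N₁ i) (N₂ i)) x) ?_ (fun x hx => hx.2)
    intro x hx
    exact (((hDet _ _ _ _ (hP i) (hF i) x hx.1).1.differentiableAt
      (by simp)).hasFDerivAt).hasFDerivWithinAt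
  have hex : ∃ y ∈ ball (0 : E4) 1, y ∉ B ∪ (Z ∪ ((⋃ i, S i) ∪ {0})) := by
    by_contra hc
    push Not at hc
    have h1 : volume (ball (0 : E4) 1) ≤ volume B := by
      calc volume (ball (0 : E4) 1) ≤ volume (B ∪ (Z ∪ ((⋃ i, S i) ∪ {0}))) :=
            measure_mono hc
        _ ≤ volume B + volume (Z ∪ ((⋃ i, S i) ∪ {0})) := measure_union_le _ _
        _ = volume B := by
            have : volume (Z ∪ ((⋃ i, S i) ∪ {0})) = 0 := by
              rw [measure_union_null_iff, measure_union_null_iff, measure_iUnion_null_iff]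
              exact ⟨hZ, hS, measure_singleton _⟩
            rw [this, add_zero]
    have h2 : ((m + 1 : ℕ) : ℝ≥0∞) * volume B ≤
        ENNReal.ofReal (1 / 4) * ∑' i, curv (φ i) (N₁ i) (N₂ i) (A i) :=
      (mul_meas_ge_le_lintegral hCm _).trans hCi
    have h3 : ENNReal.ofReal (1 / 4) * ∑' i, curv (φ i) (N₁ i) (N₂ i) (A i) <
        ENNReal.ofReal (1 / 4) * ENNReal.ofReal (2 * Real.pi ^ 2 * (m + 1)) := by
      refine ENNReal.mul_lt_mul_right ?_ ?_ hT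
      · simp
      · exact ENNReal.ofReal_ne_top
    have h4 : ENNReal.ofReal (1 / 4) * ENNReal.ofReal (2 * Real.pi ^ 2 * (m + 1)) =
        ((m + 1 : ℕ) : ℝ≥0∞) * ENNReal.ofReal (Real.pi ^ 2 / 2) := by
      rw [← ENNReal.ofReal_mul (by norm_num), ← ENNReal.ofReal_natCast,
        ← ENNReal.ofReal_mul (by positivity)]
      congr 1
      push_cast
      ring
    rw [volume_ball_E4] at h1
    have h5 : ((m + 1 : ℕ) : ℝ≥0∞) * ENNReal.ofReal (Real.pi ^ 2 / 2) ≤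
        ((m + 1 : ℕ) : ℝ≥0∞) * volume B := mul_le_mul_right h1 _
    rw [h4] at h3
    exact absurd (h5.trans h2) (not_le.mpr h3)
  obtain ⟨y, hy, hyn⟩ := hex
  simp only [mem_union, not_or, mem_iUnion, not_exists] at hyn
  obtain ⟨hB, hZn, hSn, h0⟩ := hyn
  have hy0 : y ≠ 0 := h0
  refine ⟨y, norm_pos_iff.mpr hy0, by simpa using hy, hZn, ?_, ?_⟩
  · intro i x hx hxy hd
    exact hSn i ⟨x, ⟨hx, hd⟩, hxy⟩
  · intro s hs
    by_contra hcard
    push Not at hcard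
    apply hB
    show ((m + 1 : ℕ) : ℝ≥0∞) ≤ C y
    have h1 : (s.card : ℝ≥0∞) = ∑ i ∈ s.image Prod.fst,
        (((s.filter (fun p => p.1 = i)).card : ℕ) : ℝ≥0∞) := by
      rw [Finset.card_eq_sum_card_image Prod.fst s]
      push_cast
      rfl
    have h2 : ∀ i, (((s.filter (fun p => p.1 = i)).card : ℕ) : ℝ≥0∞) ≤ c i y := by
      intro i
      have h3 : ((s.filter (fun p => p.1 = i)).image Prod.snd).card =
          (s.filter (fun p => p.1 = i)).card := by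
        refine Finset.card_image_of_injOn ?_
        intro a ha b hb hab
        have ha' := (Finset.mem_filter.mp ha).2
        have hb' := (Finset.mem_filter.mp hb).2
        exact Prod.ext (ha'.trans hb'.symm) hab
      rw [← h3]
      refine hc3 i y _ fun x hx => ?_
      obtain ⟨p, hp, rfl⟩ := Finset.mem_image.mp hx
      obtain ⟨hp1, rfl⟩ := Finset.mem_filter.mp hp
      exact hs p hp1
    calc ((m + 1 : ℕ) : ℝ≥0∞) ≤ (s.card : ℝ≥0∞) := by exact_mod_cast hcard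
      _ ≤ ∑ i ∈ s.image Prod.fst, c i y := by
          rw [h1]
          exact Finset.sum_le_sum fun i _ => h2 i
      _ ≤ ∑' i, c i y := ENNReal.sum_le_tsum _

end Pool.Agent.Y503.RB
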