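import Mathlib

/-!
Slice discs in the 4-ball, horospheres, the inward push along horospheres.
-/

set_option autoImplicit false

namespace Pool.Agent.Y503.RB

open scoped ContDiff RealInnerProductSpace ENNReal
open MeasureTheory Set

/-- Euclidean four-space. -/
abbrev E4 := EuclideanSpace ℝ (Fin 4)

/-- First derivative of a parametrised surface in the direction `v` at the point `z`. -/
noncomputable def d1 (φ : ℂ → E4) (v z : ℂ) : E4 := fderiv ℝ φ z v

/-- Second derivative of a parametrised surface in the directions `u`, `v` at the point `z`. -/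
noncomputable def d2 (φ : ℂ → E4) (u v z : ℂ) : E4 := fderiv ℝ (fun w => fderiv ℝ φ w v) z u

/-- First fundamental form. -/
noncomputable def fff (φ : ℂ → E4) (u v z : ℂ) : ℝ := ⟪d1 φ u z, d1 φ v z⟫

/-- Second fundamental form with respect to the normal vector `n`. -/
noncomputable def sff (φ : ℂ → E4) (n : E4) (u v z : ℂ) : ℝ := ⟪n, d2 φ u v z⟫

/-- Euclidean radius of the horosphere of the unit ball (sphere inside the unit ball which touches
the unit sphere) through the point `p` with unit normal `n` at `p` pointing to its inside. -/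
noncomputable def rad (p n : E4) : ℝ := (1 - ‖p‖ ^ 2) / (2 * (1 + ⟪p, n⟫))

/-- The point in which the horosphere through `p` with inner unit normal `n` touches the unit
sphere. -/
noncomputable def foot (p n : E4) : E4 := (1 - rad p n)⁻¹ • (p + rad p n • n)

/-- The form `rad * II_n - I` at the point `φ z`. It is positive definite if and only if both
principal curvatures in the direction `n` are greater than that of the horosphere. -/
noncomputable def exc (φ : ℂ → E4) (n : E4) (u v z : ℂ) : ℝ :=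
  rad (φ z) n * sff φ n u v z - fff φ u v z

/-- Its determinant. -/
noncomputable def excDet (φ : ℂ → E4) (n : E4) (z : ℂ) : ℝ :=
  exc φ n 1 1 z * exc φ n Complex.I Complex.I z - exc φ n 1 Complex.I z ^ 2

/-- Determinant of the first fundamental form. -/
noncomputable def fffDet (φ : ℂ → E4) (z : ℂ) : ℝ :=
  fff φ 1 1 z * fff φ Complex.I Complex.I z - fff φ 1 Complex.I z ^ 2

/-- Density, without sign condition. -/
noncomputable def dens0 (φ : ℂ → E4) (n : E4) (z : ℂ) : ℝ :=
  rad (φ z) n / (1 - rad (φ z) n) ^ 3 * |excDet φ n z| / √(fffDet φ z)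

/-- `rad * II_n - I` is positive definite: near `φ z` the surface is inside of the horosphere. -/
def Inner (φ : ℂ → E4) (n : E4) (z : ℂ) : Prop := 0 < exc φ n 1 1 z ∧ 0 < excDet φ n z

open Classical in
/-- Density of the horospherical curvature. -/
noncomputable def dens (φ : ℂ → E4) (n : E4) (z : ℂ) : ℝ :=
  if Inner φ n z then dens0 φ n z else 0

/-- The unit normal `cos θ N₁ + sin θ N₂`. -/
noncomputable def nor (N₁ N₂ : ℂ → E4) (θ : ℝ) (z : ℂ) : E4 :=
  Real.cos θ • N₁ z + Real.sin θ • N₂ z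

/-- Smooth orthonormal frame of the normal bundle over `U`. -/
structure Frame (φ N₁ N₂ : ℂ → E4) (U : Set ℂ) : Prop where
  smooth₁ : ContDiffOn ℝ ∞ N₁ U
  smooth₂ : ContDiffOn ℝ ∞ N₂ U
  unit₁ : ∀ z ∈ U, ‖N₁ z‖ = 1
  unit₂ : ∀ z ∈ U, ‖N₂ z‖ = 1
  orth : ∀ z ∈ U, ⟪N₁ z, N₂ z⟫ = 0
  norm₁ : ∀ z ∈ U, ∀ v : ℂ, ⟪N₁ z, d1 φ v z⟫ = 0
  norm₂ : ∀ z ∈ U, ∀ v : ℂ, ⟪N₂ z, d1 φ v z⟫ = 0

/-- Total horospherical curvature over `U`. -/
noncomputable def curv (φ N₁ N₂ : ℂ → E4) (U : Set ℂ) : ℝ≥0∞ :=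
  ∫⁻ z in U, ∫⁻ θ in Ico 0 (2 * Real.pi), ENNReal.ofReal (dens φ (nor N₁ N₂ θ z) z)

/-- Smooth immersed patch in the open unit ball over the open set `U`. -/
structure Patch (φ : ℂ → E4) (U : Set ℂ) : Prop where
  isOpen : IsOpen U
  smooth : ContDiffOn ℝ ∞ φ U
  imm : ∀ z ∈ U, Function.Injective (fderiv ℝ φ z)
  inside : ∀ z ∈ U, ‖φ z‖ < 1

/-- Height in the half-space model with `ξ` at infinity (Poisson kernel). -/
noncomputable def ht (ξ x : E4) : ℝ := (1 - ‖x‖ ^ 2) / ‖x - ξ‖ ^ 2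

/-- Inversion with centre `ξ` and radius `√2`. -/
noncomputable def inv (ξ x : E4) : E4 := ξ + (2 / ‖x - ξ‖ ^ 2) • (x - ξ)

/-- The map which turns the horospheres at `ξ` into spheres around `0`. -/
noncomputable def push (ξ x : E4) : E4 :=
  Real.exp (-ht ξ x) • inv ξ (inv ξ x + ht ξ x • ξ)

/-- Its inverse. -/
noncomputable def pull (ξ w : E4) : E4 :=
  inv ξ (inv ξ (‖w‖⁻¹ • w) + Real.log ‖w‖ • ξ)

/-- `G(θ, z)`: the point at infinity of the horosphere with normal `cos θ N₁ + sin θ N₂`. -/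
noncomputable def gmap (φ N₁ N₂ : ℂ → E4) (q : ℝ × ℂ) : E4 := foot (φ q.2) (nor N₁ N₂ q.1 q.2)

/-- First two coordinates as a complex number. -/
noncomputable def zc (x : E4) : ℂ := ⟨x 0, x 1⟩

/-- The map `(x₀, x₁, θ, r) ↦ r G(θ, x₀ + i x₁)`. -/
noncomputable def cmap (φ N₁ N₂ : ℂ → E4) (x : E4) : E4 := x 3 • gmap φ N₁ N₂ (x 2, zc x)

end Pool.Agent.Y503.RB
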