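import Pool.Agent.Y503.RB.Stm

/-!
Total horospherical curvature without frames; surfaces in the 4-ball.
-/

set_option autoImplicit false

namespace Pool.Agent.Y503.RB

open scoped ContDiff RealInnerProductSpace ENNReal Topology
open MeasureTheory Set Metric

/-- Integral of the density over the circle of unit normal vectors at `φ z`. (All `L` in the
supremum give the same value.) -/
noncomputable def curvAt (φ : ℂ → E4) (z : ℂ) : ℝ≥0∞ :=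
  ⨆ (L : ℂ →ₗᵢ[ℝ] E4) (_ : ∀ w v : ℂ, ⟪L w, d1 φ v z⟫ = 0),
    ∫⁻ θ in Ico 0 (2 * Real.pi),
      ENNReal.ofReal (dens φ (L ⟨Real.cos θ, Real.sin θ⟩) z)

/-- The curve `{z | ‖φ z‖ = 1}`, the boundary, is cut out transversally and `φ` is a smooth
embedding of the open set `U`. -/
structure BPatch (φ : ℂ → E4) (U : Set ℂ) : Prop where
  isOpen : IsOpen U
  smooth : ContDiffOn ℝ ∞ φ U
  imm : ∀ z ∈ U, Function.Injective (fderiv ℝ φ z)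
  emb : Topology.IsEmbedding (fun z : U => φ z)
  trans : ∀ z ∈ U, ‖φ z‖ = 1 → fderiv ℝ (fun w => ‖φ w‖ ^ 2) z ≠ 0

/-- Compact smooth surface with boundary, properly and transversally embedded in the closed unit
ball: near each of its points it is a smooth surface, cut transversally by the unit ball. -/
structure PSurf (F : Set E4) : Prop where
  compact : IsCompact F
  sub : F ⊆ closedBall 0 1
  loc : ∀ p ∈ F, ∃ (φ : ℂ → E4) (U : Set ℂ) (V : Set E4), BPatch φ U ∧ IsOpen V ∧ p ∈ V ∧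
    F ∩ V = φ '' U ∩ closedBall 0 1

/-- Total horospherical curvature of `F`: infimum over all countable families of parametrised
pieces of `F` which cover the part of `F` in the open ball. -/
noncomputable def totalCurv (F : Set E4) : ℝ≥0∞ :=
  ⨅ (φ : ℕ → ℂ → E4) (U : ℕ → Set ℂ) (A : ℕ → Set ℂ)
    (_ : (∀ i, Patch (φ i) (U i) ∧ φ i '' U i ⊆ F ∧ MeasurableSet (A i) ∧ A i ⊆ U i) ∧
      F ∩ ball 0 1 ⊆ ⋃ i, φ i '' A i),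
    ∑' i, ∫⁻ z in A i, curvAt (φ i) z

/-- The norm restricted to `F` is a Morse function in the open ball with at most `m` local
maxima there. -/
structure MorseSurf (F : Set E4) (m : ℕ) : Prop where
  morse : ∀ p ∈ F, ‖p‖ < 1 → ∃ (φ : ℂ → E4) (U : Set ℂ) (V : Set E4) (z : ℂ), BPatch φ U ∧
    IsOpen V ∧ p ∈ V ∧ F ∩ V = φ '' U ∧ z ∈ U ∧ φ z = p ∧
    (fderiv ℝ (fun w => ‖φ w‖ ^ 2) z = 0 → ∀ u : ℂ,
      (∀ v : ℂ, fderiv ℝ (fderiv ℝ (fun w => ‖φ w‖ ^ 2)) z u v = 0) → u = 0)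
  maxima : {p : E4 | p ∈ F ∧ ‖p‖ < 1 ∧ IsLocalMaxOn (fun x => ‖x‖) F p}.encard ≤ m

/-- Domain of `pull ξ`. -/
def pdom (ξ : E4) : Set E4 :=
  {w | w ≠ 0 ∧ ‖w‖⁻¹ • w ≠ ξ ∧ inv ξ (‖w‖⁻¹ • w) + Real.log ‖w‖ • ξ ≠ ξ}

/-- LF: local normal frames. -/
def St_LF : Prop := ∀ (φ : ℂ → E4) (U : Set ℂ), Patch φ U → ∀ z ∈ U,
  ∃ U' ⊆ U, z ∈ U' ∧ IsOpen U' ∧ ∃ N₁ N₂ : ℂ → E4, Frame φ N₁ N₂ U'

/-- IND: independence of the frame. -/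
def St_IND : Prop := ∀ (φ N₁ N₂ : ℂ → E4) (U : Set ℂ), Patch φ U → Frame φ N₁ N₂ U →
  ∀ z ∈ U, ∫⁻ θ in Ico 0 (2 * Real.pi), ENNReal.ofReal (dens φ (nor N₁ N₂ θ z) z) = curvAt φ z

/-- DIFFEO: `push ξ` is a diffeomorphism onto `pdom ξ` with inverse `pull ξ`. -/
def St_DIFFEO : Prop := ∀ ξ : E4, ‖ξ‖ = 1 →
  IsOpen (pdom ξ) ∧ (∀ x : E4, x ≠ ξ → push ξ x ∈ pdom ξ) ∧
  (∀ w ∈ pdom ξ, pull ξ w ≠ ξ ∧ push ξ (pull ξ w) = w ∧ ContDiffAt ℝ ∞ (pull ξ) w) ∧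
  (∀ x : E4, x ≠ ξ → (‖push ξ x‖ ≤ 1 ↔ ‖x‖ ≤ 1) ∧ (‖push ξ x‖ < 1 ↔ ‖x‖ < 1) ∧
    (‖push ξ x‖ = 1 ↔ ‖x‖ = 1))

/-- BP: a parametrisation composed with `push ξ`. -/
def St_BP : Prop := ∀ (ξ : E4) (φ : ℂ → E4) (U : Set ℂ), ‖ξ‖ = 1 → BPatch φ U →
  (∀ z ∈ U, φ z ≠ ξ) → BPatch (fun w => push ξ (φ w)) U

/-- SURF: the pushed surface. -/
def St_SURF : Prop := ∀ (ξ : E4) (F : Set E4), ‖ξ‖ = 1 → PSurf F → ξ ∉ F →
  PSurf (push ξ '' F) ∧ push ξ '' F ∩ sphere 0 1 = F ∩ sphere 0 1 ∧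
  ∀ (φ : ℂ → E4) (U : Set ℂ) (V : Set E4), IsOpen V → F ∩ V = φ '' U → (∀ z ∈ U, φ z ≠ ξ) →
    ∃ V' : Set E4, IsOpen V' ∧ push ξ '' F ∩ V' = (fun w => push ξ (φ w)) '' U

/-- LP: countably many local parametrisations of the part of a surface in the open ball. -/
def St_LP : Prop := ∀ F : Set E4, PSurf F →
  ∃ (φ : ℕ → ℂ → E4) (U : ℕ → Set ℂ) (V : ℕ → Set E4),
    (∀ i, BPatch (φ i) (U i) ∧ Patch (φ i) (U i) ∧ IsOpen (V i) ∧ F ∩ V i = φ i '' U i) ∧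
      F ∩ ball 0 1 ⊆ ⋃ i, φ i '' U i

/-- CONE: the cone over a surface is a null set. -/
def St_CONE : Prop := ∀ F : Set E4, PSurf F →
  volume {y : E4 | ∃ r : ℝ, ∃ p ∈ F, y = r • p} = 0

/-- REF: decomposition of a piece of a parametrised surface into framed pieces. -/
def St_REF : Prop := ∀ (φ : ℂ → E4) (U A : Set ℂ), Patch φ U → MeasurableSet A → A ⊆ U →
  ∃ (N₁ N₂ : ℕ → ℂ → E4) (U' A' : ℕ → Set ℂ),
    (∀ j, Patch φ (U' j) ∧ Frame φ (N₁ j) (N₂ j) (U' j) ∧ MeasurableSet (A' j) ∧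
      A' j ⊆ U' j ∧ U' j ⊆ U) ∧
    U ⊆ ⋃ j, U' j ∧ A ⊆ ⋃ j, A' j ∧
    ∑' j, curv φ (N₁ j) (N₂ j) (A' j) ≤ ∫⁻ z in A, curvAt φ z

end Pool.Agent.Y503.RB
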