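import Pool.Agent.Y503.RB.ConvSurf
import Pool.Agent.Y503.RB.All

/-!
Gap theorems.
-/

set_option autoImplicit false

namespace Pool.Agent.Y503.RB

open scoped ContDiff RealInnerProductSpace ENNReal Topology
open MeasureTheory Set Metric Filter

/-- `F'` is the image of `F` under a map which is a diffeomorphism near `F` and the identity on the
boundary, and has the same boundary. -/
def SameType (F F' : Set E4) : Prop :=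
  F' ∩ sphere 0 1 = F ∩ sphere 0 1 ∧ ∃ Φ Ψ : E4 → E4, F' = Φ '' F ∧
    ∀ x ∈ F, ContDiffAt ℝ ∞ Φ x ∧ ContDiffAt ℝ ∞ Ψ (Φ x) ∧ Ψ (Φ x) = x ∧ (‖x‖ = 1 → Φ x = x)

theorem SameType.trans {F F' F'' : Set E4} (h1 : SameType F F') (h2 : SameType F' F'') :
    SameType F F'' := by
  obtain ⟨a1, Φ₁, Ψ₁, rfl, b1⟩ := h1
  obtain ⟨a2, Φ₂, Ψ₂, rfl, b2⟩ := h2
  refine ⟨a2.trans a1, fun x => Φ₂ (Φ₁ x), fun w => Ψ₁ (Ψ₂ w), ?_, ?_⟩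
  · rw [image_image]
  · intro x hx
    obtain ⟨c1, c2, c3, c4⟩ := b1 x hx
    obtain ⟨e1, e2, e3, e4⟩ := b2 (Φ₁ x) ⟨x, hx, rfl⟩
    refine ⟨e1.comp x c1, ?_, ?_, ?_⟩
    · have : ContDiffAt ℝ ∞ Ψ₁ (Ψ₂ (Φ₂ (Φ₁ x))) := by rw [e3]; exact c2
      exact this.comp _ e2
    · show Ψ₁ (Ψ₂ (Φ₂ (Φ₁ x))) = x
      rw [e3, c3]
    · intro hx1
      show Φ₂ (Φ₁ x) = x
      have h3 := c4 hx1
      rw [h3] at e4
      rw [h3]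
      exact e4 hx1

theorem push_ne_zero {ξ x : E4} (hξ : ‖ξ‖ = 1) (hx : x ≠ ξ) : push ξ x ≠ 0 := by
  intro h
  have h1 := (Pool.Agent.Y614.RB.theta ξ hξ x hx).1
  rw [h, norm_zero] at h1
  exact (Real.exp_pos _).ne h1

theorem gap_surf (hK : St_KAPPA) (hSig : St_SIG) (hL0 : St_LIM0) (hL1 : St_LIM1)
    (hTu : St_TUBE) (hSq : St_SQE) (hN : St_NCR) (hM : St_MXQ) (hSa : St_SAD)
    (hSQD : St_SQD) (hGS : St_GSURF) (hPar : St_PAR) (F : Set E4) :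
    List.TFAE [
      ∃ F' : Set E4, PSurf F' ∧ SameType F F' ∧ (0 : E4) ∉ F' ∧ MorseSurf F' 0,
      ∃ F' : Set E4, PSurf F' ∧ SameType F F' ∧ totalCurv F' < ENNReal.ofReal (2 * Real.pi ^ 2),
      ∃ F' : Set E4, PSurf F' ∧ SameType F F' ∧ totalCurv F' = 0] := by
  tfae_have 1 → 3 := by
    rintro ⟨F', h1, h2, h3, h4⟩
    obtain ⟨g, -, -, -, δ₀, hδ₀, hg⟩ :=
      conv_surf hK hSig hL0 hL1 hTu hSq hN hM hSa hSQD hGS hPar F' h1 h3 h4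
    obtain ⟨⟨Ψ, hR⟩, g2, g3, g4⟩ := hg (δ₀ / 2) ⟨by linarith, by linarith⟩
    refine ⟨_, g2, h2.trans ⟨g3, squeeze (δ₀ / 2) g, Ψ, rfl, ?_⟩, g4⟩
    intro x hx
    have hx0 : x ∈ {x : E4 | x ≠ 0} := fun h => h3 (h ▸ hx)
    obtain ⟨r1, r2, r3⟩ := hR.map x hx0
    exact ⟨r3, (hR.map' _ r1).2.2, r2, hR.fix x hx0⟩
  tfae_have 3 → 2 := by
    rintro ⟨F', h1, h2, h3⟩
    refine ⟨F', h1, h2, ?_⟩
    rw [h3]
    exact ENNReal.ofReal_pos.mpr (by positivity)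
  tfae_have 2 → 1 := by
    rintro ⟨F', h1, h2, h3⟩
    obtain ⟨ξ, hξ, s1, s2, s3, s4, s5, s6⟩ := surfaces F' h1 0 (by simpa using h3)
    refine ⟨_, s4, h2.trans ⟨s5, push ξ, pull ξ, rfl, ?_⟩, ?_, s6⟩
    · intro x hx
      obtain ⟨r1, r2, r3⟩ := s2 x hx
      exact ⟨r1, r2, r3, s3 x hx⟩
    · rintro ⟨x, hx, hx0⟩
      exact push_ne_zero hξ (fun h => s1 (h ▸ hx)) hx0
  tfae_finish

theorem gap_disc (hK : St_KAPPA) (hSig : St_SIG) (hL0 : St_LIM0) (hL1 : St_LIM1)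
    (hTu : St_TUBE) (hSq : St_SQE) (hN : St_NCR) (hM : St_MXQ) (hSa : St_SAD) (hTy : St_TYPE)
    (hSQD : St_SQD) (γ : ℂ → E4) :
    List.TFAE [
      ∃ φ : ℂ → E4, SliceDisc φ ∧ (∀ z ∈ sphere (0 : ℂ) 1, φ z = γ z) ∧
        (∀ z ∈ closedBall (0 : ℂ) 1, φ z ≠ 0) ∧ MorseDisc φ 0,
      ∃ φ : ℂ → E4, SliceDisc φ ∧ (∀ z ∈ sphere (0 : ℂ) 1, φ z = γ z) ∧
        ∫⁻ z in ball (0 : ℂ) 1, curvAt φ z < ENNReal.ofReal (2 * Real.pi ^ 2),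
      ∃ φ : ℂ → E4, SliceDisc φ ∧ (∀ z ∈ sphere (0 : ℂ) 1, φ z = γ z) ∧
        ∫⁻ z in ball (0 : ℂ) 1, curvAt φ z = 0] := by
  tfae_have 1 → 3 := by
    rintro ⟨φ, h1, h2, h3, h4⟩
    obtain ⟨g, -, -, -, δ₀, hδ₀, hg⟩ :=
      conv_disc hK hSig hL0 hL1 hTu hSq hN hM hSa hTy hSQD φ h1 h3 h4
    obtain ⟨g1, g2, g3⟩ := hg (δ₀ / 2) ⟨by linarith, by linarith⟩
    exact ⟨_, g1, fun z hz => (g2 z hz).trans (h2 z hz), g3⟩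
  tfae_have 3 → 2 := by
    rintro ⟨φ, h1, h2, h3⟩
    refine ⟨φ, h1, h2, ?_⟩
    rw [h3]
    exact ENNReal.ofReal_pos.mpr (by positivity)
  tfae_have 2 → 1 := by
    rintro ⟨φ, h1, h2, h3⟩
    obtain ⟨ξ, hξ, s1, s2, s3, s4⟩ := disc φ h1 0 (by simpa using h3)
    exact ⟨_, s2, fun z hz => (s3 z hz).trans (h2 z hz), fun z hz => push_ne_zero hξ (s1 z hz), s4⟩
  tfae_finish

end Pool.Agent.Y503.RB
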