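import Pool.Agent.Y503.RB.Gap
import Pool.Agent.Y555.RB.Sqe
import Pool.Agent.Y170.RB.Tube
import Pool.Agent.Y941.RB.Lim
import Pool.Agent.Y339.RB.NCR
import Pool.Agent.Y185.RB.Sqd
import Pool.Agent.Y794.RB.Gsurf
import Pool.Agent.Y987.RB.Par
import Pool.Agent.Y151.RB.Inn
import Pool.Agent.Y972.RB.KAPPA
import Pool.Agent.Y972.RB.SIG
import Pool.Agent.Y972.RB.TYPE
import Pool.Agent.Y281.RB.SAD

/-!
Gap theorems without hypotheses.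
-/

set_option autoImplicit false

namespace Pool.Agent.Y503.RB

open scoped ContDiff RealInnerProductSpace ENNReal Topology
open MeasureTheory Set Metric Filter

theorem gapSurf (F : Set E4) :
    List.TFAE [
      ∃ F' : Set E4, PSurf F' ∧ SameType F F' ∧ (0 : E4) ∉ F' ∧ MorseSurf F' 0,
      ∃ F' : Set E4, PSurf F' ∧ SameType F F' ∧ totalCurv F' < ENNReal.ofReal (2 * Real.pi ^ 2),
      ∃ F' : Set E4, PSurf F' ∧ SameType F F' ∧ totalCurv F' = 0] :=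
  gap_surf Pool.Agent.Y972.RB.kappa Pool.Agent.Y972.RB.sig Pool.Agent.Y941.RB.lim0
    Pool.Agent.Y941.RB.lim1 Pool.Agent.Y170.RB.TUBE
    (Pool.Agent.Y555.RB.sqe_of Pool.Agent.Y151.RB.inn) Pool.Agent.Y339.RB.NCR.ncr
    Pool.Agent.Y339.RB.NCR.mxq Pool.Agent.Y281.RB.sad Pool.Agent.Y185.RB.sqd
    Pool.Agent.Y794.RB.gsurf (Pool.Agent.Y987.RB.par_of Pool.Agent.Y972.RB.type) F

theorem gapDisc (γ : ℂ → E4) :
    List.TFAE [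
      ∃ φ : ℂ → E4, SliceDisc φ ∧ (∀ z ∈ sphere (0 : ℂ) 1, φ z = γ z) ∧
        (∀ z ∈ closedBall (0 : ℂ) 1, φ z ≠ 0) ∧ MorseDisc φ 0,
      ∃ φ : ℂ → E4, SliceDisc φ ∧ (∀ z ∈ sphere (0 : ℂ) 1, φ z = γ z) ∧
        ∫⁻ z in ball (0 : ℂ) 1, curvAt φ z < ENNReal.ofReal (2 * Real.pi ^ 2),
      ∃ φ : ℂ → E4, SliceDisc φ ∧ (∀ z ∈ sphere (0 : ℂ) 1, φ z = γ z) ∧
        ∫⁻ z in ball (0 : ℂ) 1, curvAt φ z = 0] :=
  gap_disc Pool.Agent.Y972.RB.kappa Pool.Agent.Y972.RB.sig Pool.Agent.Y941.RB.lim0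
    Pool.Agent.Y941.RB.lim1 Pool.Agent.Y170.RB.TUBE
    (Pool.Agent.Y555.RB.sqe_of Pool.Agent.Y151.RB.inn) Pool.Agent.Y339.RB.NCR.ncr
    Pool.Agent.Y339.RB.NCR.mxq Pool.Agent.Y281.RB.sad Pool.Agent.Y972.RB.type
    Pool.Agent.Y185.RB.sqd γ

end Pool.Agent.Y503.RB
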