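import Pool.Agent.Y503.RB.Core

/-!
Critical points of the norm on the pushed surface.
-/

set_option autoImplicit false

namespace Pool.Agent.Y503.RB

open scoped ContDiff RealInnerProductSpace ENNReal Topology
open MeasureTheory Set Metric Filter

/-- The point with given coordinates. -/
noncomputable def mk4 (z : ℂ) (θ r : ℝ) : E4 := WithLp.toLp 2 ![z.re, z.im, θ, r]

@[simp] theorem mk4_zc (z : ℂ) (θ r : ℝ) : zc (mk4 z θ r) = z := by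
  apply Complex.ext <;> simp [zc, mk4]

@[simp] theorem mk4_two (z : ℂ) (θ r : ℝ) : (mk4 z θ r) 2 = θ := by simp [mk4]

@[simp] theorem mk4_three (z : ℂ) (θ r : ℝ) : (mk4 z θ r) 3 = r := by simp [mk4]

theorem ht_pos {ξ x : E4} (hξ : ‖ξ‖ = 1) (hx : ‖x‖ < 1) : 0 < ht ξ x := by
  have h1 : x ≠ ξ := by
    rintro rfl
    linarith
  have h2 : 0 < ‖x - ξ‖ := norm_pos_iff.mpr (sub_ne_zero.mpr h1)
  have h3 : ‖x‖ ^ 2 < 1 := by nlinarith [norm_nonneg x]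
  unfold ht
  have : 0 < 1 - ‖x‖ ^ 2 := by linarith
  positivity

theorem ht_smooth {ξ x : E4} (hx : x ≠ ξ) : ContDiffAt ℝ ∞ (ht ξ) x := by
  have h2 : ‖x - ξ‖ ^ 2 ≠ 0 := by
    have : 0 < ‖x - ξ‖ := norm_pos_iff.mpr (sub_ne_zero.mpr hx)
    positivity
  unfold ht
  refine ContDiffAt.div ?_ ?_ h2
  · exact contDiffAt_const.sub (contDiffAt_id.norm_sq ℝ)
  · exact (contDiffAt_id.sub contDiffAt_const).norm_sq ℝ

/-- The function whose local maxima are counted. -/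
theorem normsq_eventually (hTh : St_THETA) {ξ : E4} (hξ : ‖ξ‖ = 1) {φ : ℂ → E4} {z : ℂ}
    (hs : ContinuousAt φ z) (hn : φ z ≠ ξ) :
    (fun w => ‖push ξ (φ w)‖ ^ 2) =ᶠ[𝓝 z] (fun w => Real.exp (-ht ξ (φ w)) ^ 2) := by
  have h1 : ∀ᶠ w in 𝓝 z, φ w ≠ ξ := hs.eventually_ne hn
  filter_upwards [h1] with w hw
  rw [(hTh ξ hξ (φ w) hw).1]

theorem crit (hTh : St_THETA) (hH : St_HESS) (hSO : St_SOC) (hE : St_EXPF) (hS : St_SYM)
    (hDet : St_DET) (hFr : St_FRAME)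
    {φ N₁ N₂ : ℂ → E4} {U : Set ℂ} (hP : Patch φ U) (hF : Frame φ N₁ N₂ U)
    {ξ : E4} (hξ : ‖ξ‖ = 1) {r : ℝ}
    (hreg : ∀ x : E4, zc x ∈ U → cmap φ N₁ N₂ x = r • ξ →
      (fderiv ℝ (cmap φ N₁ N₂) x).det ≠ 0)
    {z : ℂ} (hz : z ∈ U) (hc : fderiv ℝ (fun w => ‖push ξ (φ w)‖ ^ 2) z = 0) :
    ∃ θ ∈ Ico 0 (2 * Real.pi), cmap φ N₁ N₂ (mk4 z θ r) = r • ξ ∧
      excDet φ (nor N₁ N₂ θ z) z ≠ 0 ∧
      (∃ κ : ℝ, 0 < κ ∧ ∀ u v : ℂ,
        fderiv ℝ (fderiv ℝ (fun w => ‖push ξ (φ w)‖ ^ 2)) z u v =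
          -κ * exc φ (nor N₁ N₂ θ z) u v z) ∧
      (IsLocalMax (fun w => ‖push ξ (φ w)‖ ^ 2) z → Inner φ (nor N₁ N₂ θ z) z) := by
  have hsm : ContDiffAt ℝ ∞ φ z := hP.smooth.contDiffAt (hP.isOpen.mem_nhds hz)
  have hin := hP.inside z hz
  have hne : φ z ≠ ξ := by
    intro h
    rw [h] at hin
    linarith
  have hev := normsq_eventually hTh hξ hsm.continuousAt hne
  have htsm : ContDiffAt ℝ ∞ (fun w => ht ξ (φ w)) z := (ht_smooth hne).comp z hsm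
  obtain ⟨e1, e2, e3⟩ := hE (fun w => ht ξ (φ w)) z htsm
  have hc' : fderiv ℝ (fun w => ht ξ (φ w)) z = 0 := by
    rw [← e1, ← hev.fderiv_eq, hc]
  obtain ⟨n, hn1, hn2, hn3, hn4, hn5, hn6⟩ := hH ξ φ z hξ hsm hin hc'
  obtain ⟨θ, hθ, rfl⟩ := hFr φ N₁ N₂ U hP hF z hz n hn1 hn2
  have hmap : cmap φ N₁ N₂ (mk4 z θ r) = r • ξ := by
    simp only [cmap, gmap, mk4_zc, mk4_two, mk4_three]
    rw [hn3]
  have hdet : excDet φ (nor N₁ N₂ θ z) z ≠ 0 := by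
    intro h0
    have h1 := hreg (mk4 z θ r) (by simpa using hz) hmap
    have h2 := (hDet φ N₁ N₂ U hP hF (mk4 z θ r) (by simpa using hz)).2
    rw [mk4_zc, mk4_two, mk4_three] at h2
    rw [dens0, h0] at h2
    simp at h2
    exact h1 h2
  have hhess : ∀ u v : ℂ, fderiv ℝ (fderiv ℝ (fun w => ‖push ξ (φ w)‖ ^ 2)) z u v =
      -(2 * Real.exp (-ht ξ (φ z)) ^ 2 * (2 * (1 + ht ξ (φ z)) / ‖φ z - ξ‖ ^ 2)) *
        exc φ (nor N₁ N₂ θ z) u v z := by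
    intro u v
    have h1 : fderiv ℝ (fun w => ‖push ξ (φ w)‖ ^ 2) =ᶠ[𝓝 z]
        fderiv ℝ (fun w => Real.exp (-ht ξ (φ w)) ^ 2) := hev.fderiv
    rw [h1.fderiv_eq, e2 hc' u v, hn6 u v]
    ring
  have htp := ht_pos hξ hin
  have hd : 0 < ‖φ z - ξ‖ := norm_pos_iff.mpr (sub_ne_zero.mpr hne)
  have hκ : 0 < 2 * Real.exp (-ht ξ (φ z)) ^ 2 * (2 * (1 + ht ξ (φ z)) / ‖φ z - ξ‖ ^ 2) := by
    positivity
  refine ⟨θ, hθ, hmap, hdet, ⟨_, hκ, hhess⟩, ?_⟩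
  intro hmax
  have hmin : IsLocalMin (fun w => ht ξ (φ w)) z := by
    rw [← e3]
    exact hmax.congr hev
  have hso := hSO (fun w => ht ξ (φ w)) z htsm hmin
  have hκ2 : 0 < 2 * (1 + ht ξ (φ z)) / ‖φ z - ξ‖ ^ 2 := by positivity
  refine inner_of_semidef (e := exc φ (nor N₁ N₂ θ z) 1 1 z)
    (f := exc φ (nor N₁ N₂ θ z) 1 Complex.I z)
    (g := exc φ (nor N₁ N₂ θ z) Complex.I Complex.I z) ?_ hdet
  intro a b
  have h1 := hso (a + b * Complex.I)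
  rw [hn6, exc_quad hS _ _ _ _ _ hsm] at h1
  exact nonneg_of_mul_nonneg_right h1 hκ2

/-- Nondegenerate second derivative. -/
theorem nondeg (hS : St_SYM) {φ : ℂ → E4} {n : E4} {z : ℂ} (hsm : ContDiffAt ℝ ∞ φ z)
    (hdet : excDet φ n z ≠ 0) {κ : ℝ} (hκ : 0 < κ) {u : ℂ}
    (h : ∀ v : ℂ, -κ * exc φ n u v z = 0) : u = 0 := by
  have h0 : ∀ v : ℂ, exc φ n u v z = 0 := by
    intro v
    have := h v
    rcases mul_eq_zero.mp this with h' | h'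
    · linarith
    · exact h'
  have hu : u = (u.re : ℂ) + (u.im : ℂ) * Complex.I := (Complex.re_add_im u).symm
  have h1 : u.re * exc φ n 1 1 z + u.im * exc φ n Complex.I 1 z = 0 := by
    rw [← exc_lin_left, ← hu]
    exact h0 1
  have h2 : u.re * exc φ n 1 Complex.I z + u.im * exc φ n Complex.I Complex.I z = 0 := by
    rw [← exc_lin_left, ← hu]
    exact h0 Complex.I
  rw [exc_symm hS φ n Complex.I 1 z hsm] at h1
  unfold excDet at hdet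
  have h3 : u.re * (exc φ n 1 1 z * exc φ n Complex.I Complex.I z -
      exc φ n 1 Complex.I z ^ 2) = 0 := by
    linear_combination (exc φ n Complex.I Complex.I z) * h1 - (exc φ n 1 Complex.I z) * h2
  have h4 : u.im * (exc φ n 1 1 z * exc φ n Complex.I Complex.I z -
      exc φ n 1 Complex.I z ^ 2) = 0 := by
    linear_combination (exc φ n 1 1 z) * h2 - (exc φ n 1 Complex.I z) * h1
  apply Complex.ext
  · exact (mul_eq_zero.mp h3).resolve_right hdet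
  · exact (mul_eq_zero.mp h4).resolve_right hdet

end Pool.Agent.Y503.RB
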