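import Pool.Agent.Y503.RB.Disc
import Pool.Agent.Y503.RB.Def2

/-!
Surfaces of small total horospherical curvature.
-/

set_option autoImplicit false

namespace Pool.Agent.Y503.RB

open scoped ContDiff RealInnerProductSpace ENNReal Topology
open MeasureTheory Set Metric Filter

theorem max_comp {φ : ℂ → E4} {U : Set ℂ} {F : Set E4} {f : E4 → ℝ} (hU : IsOpen U)
    (hc : ContinuousOn φ U) (hs : φ '' U ⊆ F) {z : ℂ} (hz : z ∈ U)
    (h : IsLocalMaxOn f F (φ z)) : IsLocalMax (fun w => f (φ w)) z := by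
  have h1 : Tendsto φ (𝓝 z) (𝓝[F] (φ z)) := by
    refine tendsto_nhdsWithin_iff.mpr ⟨hc.continuousAt (hU.mem_nhds hz), ?_⟩
    filter_upwards [hU.mem_nhds hz] with w hw
    exact hs ⟨w, hw, rfl⟩
  exact h1.eventually h

theorem core2 (hTh : St_THETA) (hH : St_HESS) (hSO : St_SOC) (hE : St_EXPF) (hS : St_SYM)
    (hDet : St_DET) (hDG : St_DG) (hC : St_CONT) (hFub : St_FUB)
    (hFr : St_FRAME) (hRef : St_REF)
    {ι : Type} [Countable ι] (φ : ι → ℂ → E4) (U A : ι → Set ℂ)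
    (hP : ∀ i, Patch (φ i) (U i)) (hA : ∀ i, MeasurableSet (A i)) (hAU : ∀ i, A i ⊆ U i)
    (Z : Set E4) (hZ : volume Z = 0) (m : ℕ)
    (hT : ∑' i, ∫⁻ z in A i, curvAt (φ i) z < ENNReal.ofReal (2 * Real.pi ^ 2 * (m + 1))) :
    ∃ (ξ : E4) (r : ℝ), ‖ξ‖ = 1 ∧ r • ξ ∉ Z ∧
      (∀ i, ∀ z ∈ U i, fderiv ℝ (fun w => ‖push ξ (φ i w)‖ ^ 2) z = 0 → ∀ u : ℂ,
        (∀ v : ℂ, fderiv ℝ (fderiv ℝ (fun w => ‖push ξ (φ i w)‖ ^ 2)) z u v = 0) → u = 0) ∧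
      ∀ s : Finset (ι × ℂ), (∀ p ∈ s, p.2 ∈ A p.1 ∧
        IsLocalMax (fun w => ‖push ξ (φ p.1 w)‖ ^ 2) p.2) → s.card ≤ m := by
  classical
  choose N₁ N₂ U' A' hall hcU hcA hsum using fun i => hRef (φ i) (U i) (A i) (hP i) (hA i) (hAU i)
  have hT' : ∑' p : ι × ℕ, curv (φ p.1) (N₁ p.1 p.2) (N₂ p.1 p.2) (A' p.1 p.2) <
      ENNReal.ofReal (2 * Real.pi ^ 2 * (m + 1)) := by
    refine lt_of_le_of_lt ?_ hT
    rw [ENNReal.tsum_prod (f := fun i j => curv (φ i) (N₁ i j) (N₂ i j) (A' i j))]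
    exact ENNReal.tsum_le_tsum hsum
  obtain ⟨y, hy0, hy1, hyZ, hreg, hcnt⟩ := core hC hDet hDG hFub (ι := ι × ℕ)
    (fun p => φ p.1) (fun p => N₁ p.1 p.2) (fun p => N₂ p.1 p.2) (fun p => U' p.1 p.2)
    (fun p => A' p.1 p.2) (fun p => (hall p.1 p.2).1) (fun p => (hall p.1 p.2).2.1)
    (fun p => (hall p.1 p.2).2.2.1) (fun p => (hall p.1 p.2).2.2.2.1) Z hZ m hT'
  set r := ‖y‖ with hr
  set ξ : E4 := r⁻¹ • y with hξd
  have hξ : ‖ξ‖ = 1 := by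
    rw [hξd, norm_smul, Real.norm_eq_abs, abs_of_pos (inv_pos.mpr hy0), ← hr,
      inv_mul_cancel₀ hy0.ne']
  have hyr : r • ξ = y := by
    rw [hξd, smul_smul, mul_inv_cancel₀ hy0.ne', one_smul]
  have hreg' : ∀ (i : ι) (j : ℕ) (x : E4), zc x ∈ U' i j →
      cmap (φ i) (N₁ i j) (N₂ i j) x = r • ξ →
      (fderiv ℝ (cmap (φ i) (N₁ i j) (N₂ i j)) x).det ≠ 0 := by
    intro i j x hx hxy
    exact hreg (i, j) x hx (by rw [hxy, hyr])
  refine ⟨ξ, r, hξ, by rwa [hyr], ?_, ?_⟩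
  · intro i z hz hc u hu
    obtain ⟨j, hj⟩ := mem_iUnion.mp (hcU i hz)
    obtain ⟨θ, hθ, h1, h2, ⟨κ, hκ, h3⟩, h4⟩ :=
      crit hTh hH hSO hE hS hDet hFr (hall i j).1 (hall i j).2.1 hξ (hreg' i j) hj hc
    have hsm : ContDiffAt ℝ ∞ (φ i) z := (hP i).smooth.contDiffAt ((hP i).isOpen.mem_nhds hz)
    refine nondeg hS hsm h2 hκ (fun v => ?_)
    rw [← h3 u v]
    exact hu v
  · intro s hs'
    have hpt : ∀ p : ι × ℂ, ∃ (j : ℕ) (θ : ℝ), (p ∈ s → p.2 ∈ A' p.1 j ∧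
        θ ∈ Ico 0 (2 * Real.pi) ∧
        cmap (φ p.1) (N₁ p.1 j) (N₂ p.1 j) (mk4 p.2 θ r) = y ∧
        Inner (φ p.1) (nor (N₁ p.1 j) (N₂ p.1 j) θ p.2) p.2) := by
      intro p
      by_cases hp : p ∈ s
      · obtain ⟨hp1, hp2⟩ := hs' p hp
        obtain ⟨j, hj⟩ := mem_iUnion.mp (hcA p.1 hp1)
        have hc : fderiv ℝ (fun w => ‖push ξ (φ p.1 w)‖ ^ 2) p.2 = 0 := hp2.fderiv_eq_zero
        obtain ⟨θ, hθ, h1, h2, -, h4⟩ :=
          crit hTh hH hSO hE hS hDet hFr (hall p.1 j).1 (hall p.1 j).2.1 hξ (hreg' p.1 j)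
            ((hall p.1 j).2.2.2.1 hj) hc
        exact ⟨j, θ, fun _ => ⟨hj, hθ, by rw [h1, hyr], h4 hp2⟩⟩
      · exact ⟨0, 0, fun h => absurd h hp⟩
    choose j θ hθ using hpt
    have hinj : Function.Injective (fun p : ι × ℂ => ((p.1, j p), mk4 p.2 (θ p) r)) := by
      intro a b hab
      have h1 := congrArg (fun q : (ι × ℕ) × E4 => q.1.1) hab
      have h2 := congrArg (fun q : (ι × ℕ) × E4 => zc q.2) hab
      simp only [mk4_zc] at h1 h2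
      exact Prod.ext h1 h2
    have := hcnt (s.map ⟨_, hinj⟩) ?_
    · simpa using this
    · intro p hp
      obtain ⟨q, hq, rfl⟩ := Finset.mem_map.mp hp
      obtain ⟨h0, h1, h2, h3⟩ := hθ q hq
      simp only [Function.Embedding.coeFn_mk, mk4_zc, mk4_two, mk4_three]
      exact ⟨h0, h3, ⟨hy0, hy1⟩, h1, h2⟩

/-- Slice discs. -/
theorem main_disc2 (hTh : St_THETA) (hH : St_HESS) (hSO : St_SOC) (hE : St_EXPF) (hS : St_SYM)
    (hDet : St_DET) (hDG : St_DG) (hC : St_CONT) (hFub : St_FUB) (hNu : St_NULL)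
    (hFr : St_FRAME) (hTr : St_TRANS) (hRef : St_REF)
    (φ : ℂ → E4) (h : SliceDisc φ) (m : ℕ)
    (hT : ∫⁻ z in ball (0 : ℂ) 1, curvAt φ z < ENNReal.ofReal (2 * Real.pi ^ 2 * (m + 1))) :
    ∃ ξ : E4, ‖ξ‖ = 1 ∧ (∀ z ∈ closedBall (0 : ℂ) 1, φ z ≠ ξ) ∧
      SliceDisc (fun w => push ξ (φ w)) ∧
      (∀ z ∈ sphere (0 : ℂ) 1, push ξ (φ z) = φ z) ∧
      MorseDisc (fun w => push ξ (φ w)) m := by
  classical
  obtain ⟨W, hW, hsub, hs⟩ := h.smooth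
  have hP := h.patch
  obtain ⟨ξ, r, hξ, hZ, hmorse, hmax⟩ := core2 hTh hH hSO hE hS hDet hDG hC hFub hFr hRef
    (ι := Unit) (fun _ => φ) (fun _ => ball 0 1) (fun _ => ball 0 1)
    (fun _ => hP) (fun _ => isOpen_ball.measurableSet) (fun _ => subset_rfl)
    _ (hNu φ W hW hs) m (by simpa using hT)
  have hne : ∀ z ∈ W, φ z ≠ ξ := by
    intro z hz he
    exact hZ ⟨r, z, hz, by rw [he]⟩
  obtain ⟨hs1, hs2⟩ := slice_push hTh hTr hξ h hW hsub hs hne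
  refine ⟨ξ, hξ, fun z hz => hne z (hsub hz), hs1, hs2, fun z hz => hmorse () z hz, ?_⟩
  refine encard_le_of_finset fun s hs' => ?_
  have := hmax (s.map ⟨fun z : ℂ => ((), z), fun a b hab => by simpa using hab⟩) ?_
  · simpa using this
  · intro p hp
    obtain ⟨z, hz, rfl⟩ := Finset.mem_map.mp hp
    exact hs' z hz

/-- Compact surfaces. -/
theorem main_surf (hTh : St_THETA) (hH : St_HESS) (hSO : St_SOC) (hE : St_EXPF) (hS : St_SYM)
    (hDet : St_DET) (hDG : St_DG) (hC : St_CONT) (hFub : St_FUB)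
    (hFr : St_FRAME) (hRef : St_REF) (hBP : St_BP) (hSu : St_SURF) (hLP : St_LP)
    (hCo : St_CONE) (hDi : St_DIFFEO)
    (F : Set E4) (h : PSurf F) (m : ℕ)
    (hT : totalCurv F < ENNReal.ofReal (2 * Real.pi ^ 2 * (m + 1))) :
    ∃ ξ : E4, ‖ξ‖ = 1 ∧ ξ ∉ F ∧
      (∀ x ∈ F, ContDiffAt ℝ ∞ (push ξ) x ∧ ContDiffAt ℝ ∞ (pull ξ) (push ξ x) ∧
        pull ξ (push ξ x) = x) ∧
      (∀ x ∈ F, ‖x‖ = 1 → push ξ x = x) ∧
      PSurf (push ξ '' F) ∧ push ξ '' F ∩ sphere 0 1 = F ∩ sphere 0 1 ∧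
      MorseSurf (push ξ '' F) m := by
  classical
  simp only [totalCurv, iInf_lt_iff] at hT
  obtain ⟨φ, U, A, ⟨hall, hcov⟩, hT⟩ := hT
  obtain ⟨ψ, U₂, V₂, hall₂, hcov₂⟩ := hLP F h
  obtain ⟨ξ, r, hξ, hZ, hmorse, hmax⟩ := core2 hTh hH hSO hE hS hDet hDG hC hFub hFr hRef
    (ι := ℕ ⊕ ℕ) (Sum.elim φ ψ) (Sum.elim U U₂) (Sum.elim A (fun _ => ∅))
    (by
      rintro (i | i)
      · exact (hall i).1
      · exact (hall₂ i).2.1)
    (by
      rintro (i | i)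
      · exact (hall i).2.2.1
      · exact MeasurableSet.empty)
    (by
      rintro (i | i)
      · exact (hall i).2.2.2
      · exact empty_subset _)
    _ (hCo F h) m (by
      rw [Summable.tsum_sum ENNReal.summable ENNReal.summable]
      simpa using hT)
  have hne : ξ ∉ F := fun hξF => hZ ⟨r, ξ, hξF, rfl⟩
  have hneF : ∀ x ∈ F, x ≠ ξ := fun x hx he => hne (he ▸ hx)
  obtain ⟨hs1, hs2, hs3⟩ := hSu ξ F hξ h hne
  refine ⟨ξ, hξ, hne, ?_, ?_, hs1, hs2, ?_, ?_⟩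
  · intro x hx
    obtain ⟨-, -, h1, h2, h3⟩ := hTh ξ hξ x (hneF x hx)
    exact ⟨h2, h3, h1⟩
  · intro x hx
    exact (hTh ξ hξ x (hneF x hx)).2.1
  · rintro q ⟨p, hp, rfl⟩ hq
    have hp1 : ‖p‖ < 1 := ((hDi ξ hξ).2.2.2 p (hneF p hp)).2.1.mp hq
    obtain ⟨k, hk⟩ := mem_iUnion.mp (hcov₂ ⟨hp, by simpa using hp1⟩)
    obtain ⟨z, hz, rfl⟩ := hk
    have hsub : ψ k '' U₂ k ⊆ F := by
      rw [← (hall₂ k).2.2.2]
      exact inter_subset_left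
    have hneU : ∀ w ∈ U₂ k, ψ k w ≠ ξ := fun w hw => hneF _ (hsub ⟨w, hw, rfl⟩)
    obtain ⟨V', hV', hFV'⟩ := hs3 (ψ k) (U₂ k) (V₂ k) (hall₂ k).2.2.1 (hall₂ k).2.2.2 hneU
    refine ⟨fun w => push ξ (ψ k w), U₂ k, V', z, hBP ξ (ψ k) (U₂ k) hξ (hall₂ k).1 hneU, hV',
      ?_, hFV', hz, rfl, ?_⟩
    · have : push ξ (ψ k z) ∈ push ξ '' F ∩ V' := by
        rw [hFV']
        exact ⟨z, hz, rfl⟩
      exact this.2
    · exact hmorse (Sum.inr k) z hz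
  · refine encard_le_of_finset fun s hs' => ?_
    have hpt : ∀ q : E4, ∃ (i : ℕ) (z : ℂ), q ∈ s → z ∈ A i ∧ push ξ (φ i z) = q ∧
        IsLocalMax (fun w => ‖push ξ (φ i w)‖ ^ 2) z := by
      intro q
      by_cases hq : q ∈ s
      · obtain ⟨⟨p, hp, hpq⟩, hq1, hq2⟩ := hs' q hq
        have hp1 : ‖p‖ < 1 := ((hDi ξ hξ).2.2.2 p (hneF p hp)).2.1.mp (by rwa [hpq])
        obtain ⟨i, hi⟩ := mem_iUnion.mp (hcov ⟨hp, by simpa using hp1⟩)
        obtain ⟨z, hz, hzp⟩ := hi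
        refine ⟨i, z, fun _ => ⟨hz, by rw [hzp, hpq], ?_⟩⟩
        have hP := (hall i).1
        have hzU := (hall i).2.2.2 hz
        have hcont : ContinuousOn (fun w => push ξ (φ i w)) (U i) := by
          intro w hw
          have h1 : ContinuousAt (push ξ) (φ i w) :=
            (hTh ξ hξ (φ i w) (hneF _ ((hall i).2.1 ⟨w, hw, rfl⟩))).2.2.2.1.continuousAt
          exact h1.comp_continuousWithinAt (hP.smooth.continuousOn w hw)
        have hsub : (fun w => push ξ (φ i w)) '' U i ⊆ push ξ '' F := by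
          rintro _ ⟨w, hw, rfl⟩
          exact ⟨φ i w, (hall i).2.1 ⟨w, hw, rfl⟩, rfl⟩
        have hmx := max_comp (f := fun x : E4 => ‖x‖) hP.isOpen hcont hsub hzU
          (by
            show IsLocalMaxOn (fun x : E4 => ‖x‖) (push ξ '' F) (push ξ (φ i z))
            rw [hzp, hpq]
            exact hq2)
        filter_upwards [hmx] with w hw
        exact pow_le_pow_left₀ (norm_nonneg _) hw 2
      · exact ⟨0, 0, fun h => absurd h hq⟩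
    choose i z hiz using hpt
    have hcard : (s.image fun q => ((Sum.inl (i q) : ℕ ⊕ ℕ), z q)).card = s.card := by
      refine Finset.card_image_of_injOn ?_
      intro a ha b hb hab
      have h1 := (hiz a ha).2.1
      have h2 := (hiz b hb).2.1
      simp only [Prod.mk.injEq, Sum.inl.injEq] at hab
      rw [← h1, ← h2, hab.1, hab.2]
    rw [← hcard]
    refine hmax _ fun p hp => ?_
    obtain ⟨q, hq, rfl⟩ := Finset.mem_image.mp hp
    obtain ⟨h1, h2, h3⟩ := hiz q hq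
    exact ⟨h1, h3⟩

end Pool.Agent.Y503.RB
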